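import Mathlib
import Pool.Agent.Helper42.Th.Defs

/-!
Link diagrams with crossings of both signs: an alternating diagram, one polygonal region of which
is filled with an alternating diagram of the opposite sign.
-/

set_option autoImplicit false

namespace Pool.Agent.Helper31.PENT

open Pool.Agent.Helper42.Th

variable {E : Type}

/-- Every cycle of the graph is a sum of boundaries of faces, modulo 2: the surface is a sphere.
Here `c` is a set of edges, which is a cycle if it has an even number of ends at every vertex. -/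
def Sphere (Γ : CMap E) : Prop :=
  ∀ c : E → ZMod 2, (∀ d, c (Γ.flip d) = c d) →
    (∀ g : E → ZMod 2, (∀ d, g (Γ.rot d) = g d) → ∑ᶠ d, c d * g d = 0) →
    ∃ f : E → ZMod 2, (∀ d, f (Γ.flip (Γ.rot d)) = f d) ∧ ∀ d, c d = f d + f (Γ.flip d)

/-- The dart `d` starts at a vertex inside of the polygon, into which the darts of `A` (the legs)
lead from the corners. -/
inductive Inside (Γ : CMap E) (A : Set E) : E → Prop
  | leg (e : E) (h : e ∈ A) : Inside Γ A (Γ.flip e)
  | rot (d : E) (h : Inside Γ A d) : Inside Γ A (Γ.rot d)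
  | pass (d : E) (h : Inside Γ A d) (h1 : Γ.flip d ∉ A) : Inside Γ A (Γ.flip d)

/-- A polygon with the sides `σ k`, the corners of which are different vertices which are not
inside.  At most one leg leads into the polygon from each corner. -/
structure Polygon (Γ : CMap E) {m : ℕ} (σ : ZMod m → E) (A : Set E) : Prop where
  size : 3 ≤ m ∧ m ≤ 5
  not_leg : ∀ k, σ k ∉ A
  step : ∀ k, Γ.rot (Γ.flip (σ k)) = σ (k + 1) ∨
    Γ.rot (Γ.flip (σ k)) ∈ A ∧ Γ.rot (Γ.rot (Γ.flip (σ k))) = σ (k + 1)
  legs : ∀ e ∈ A, ∃ k, e = Γ.rot (Γ.flip (σ k))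
  ne : ∀ k l, Γ.rot.SameCycle (σ k) (σ l) → k = l
  out : ∀ k, ¬ Inside Γ A (σ k)

variable {G : Type*} [Group G] {Γ : CMap E}

/-- For one dart `d ∈ P` of every edge, the crossing ball is filled, with the elements `F d` in
the filling: with a positive slope outside and a negative slope inside of the polygon; the slopes
of the sides of the polygon are at least `1`, and those of the legs are in `[-1, 0)`. -/
structure Filled (L : Lab G Γ) {m : ℕ} (σ : ZMod m → E) (A P : Set E) (F : E → Set G) :
    Prop where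
  cover : ∀ d, d ∈ P ∨ Γ.flip d ∈ P
  leg : ∀ d ∈ P, d ∈ A ∨ Γ.flip d ∈ A → Fill false 1 (L.D d) (L.M d)⁻¹ (F d)
  side : ∀ d ∈ P, (∃ k, σ k = d ∨ σ k = Γ.flip d) → Fill false 1 (L.M d) (L.D d) (F d)
  inner : ∀ d ∈ P, d ∉ A → Γ.flip d ∉ A → Inside Γ A d → Fill true 0 (L.M d)⁻¹ (L.D d) (F d)
  outer : ∀ d ∈ P, d ∉ A → Γ.flip d ∉ A → ¬ Inside Γ A d → (∀ k, σ k ≠ d ∧ σ k ≠ Γ.flip d) →
    Fill true 0 (L.M d) (L.D d) (F d)

end Pool.Agent.Helper31.PENT
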