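import Mathlib

/-!
The first and the last of at most five points on a circle, the combinatorial part.
-/

set_option autoImplicit false

namespace Pool.Agent.Helper31.PENT

/-- The labels `X k` of the corners of a polygon.  The corner `k` reaches the level `y` at the
point `(X k).symm y`. -/
structure Wave {Ω : Type*} [LinearOrder Ω] {m : ℕ} (U : Ω → Prop) (X : ZMod m → Ω ≃o Ω) :
    Prop where
  inv : ∀ k z, U z → U (X k z)
  inv' : ∀ k z, U z → U ((X k).symm z)
  /-- The first and the last corner are neither equal nor neighbours. -/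
  apart : ∀ y i j, U y → (∀ k, (X i).symm y ≤ (X k).symm y) →
    (∀ k, (X k).symm y ≤ (X j).symm y) → j ≠ i ∧ j ≠ i + 1 ∧ j ≠ i - 1
  cross : ∀ y z i j, U y → U z → (∀ k, (X i).symm y ≤ (X k).symm y) →
    (∀ k, (X k).symm z ≤ (X j).symm z) → (X (j + 1)).symm z ≤ (X (i + 1)).symm y →
    X (j - 1) ((X j).symm z) ≤ X (i - 1) ((X i).symm y)
  cross' : ∀ y z i j, U y → U z → (∀ k, (X i).symm y ≤ (X k).symm y) →
    (∀ k, (X k).symm z ≤ (X j).symm z) → (X (j + 1)).symm z < (X (i + 1)).symm y →
    X (j - 1) ((X j).symm z) < X (i - 1) ((X i).symm y)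

variable {Ω : Type*} [LinearOrder Ω] {m : ℕ} {U : Ω → Prop} {X : ZMod m → Ω ≃o Ω}

/-- The opposite order. -/
lemma Wave.dual (W : Wave U X) :
    Wave (fun z : Ωᵒᵈ => U (OrderDual.ofDual z)) (fun k => (X k).dual) where
  inv k z := W.inv k _
  inv' k z := W.inv' k _
  apart y i j hy hi hj := by
    obtain ⟨h1, h2, h3⟩ := W.apart (OrderDual.ofDual y) j i hy hj hi
    refine ⟨h1.symm, fun h => h3 ?_, fun h => h2 ?_⟩
    · rw [h]; ring
    · rw [h]; ring
  cross y z i j hy hz hi hj h := W.cross _ _ j i hz hy hj hi h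
  cross' y z i j hy hz hi hj h := W.cross' _ _ j i hz hy hj hi h

/-- The level which the corner `k - 1` has reached when the corner `k` reaches the level `y`. -/
def step (X : ZMod m → Ω ≃o Ω) (k : ZMod m) (y : Ω) : Ω := X (k - 1) ((X k).symm y)

lemma step_symm (k : ZMod m) (y : Ω) : (X (k - 1)).symm (step X k y) = (X k).symm y := by
  unfold step
  rw [OrderIso.symm_apply_apply]

lemma le_step (y : Ω) (j : ZMod m) (hj : ∀ k, (X k).symm y ≤ (X j).symm y) : y ≤ step X j y := by
  unfold step
  calc y = X (j - 1) ((X (j - 1)).symm y) := by rw [OrderIso.apply_symm_apply]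
    _ ≤ _ := (X (j - 1)).monotone (hj _)

lemma step_le (y : Ω) (i : ZMod m) (hi : ∀ k, (X i).symm y ≤ (X k).symm y) : step X i y ≤ y := by
  unfold step
  calc X (i - 1) ((X i).symm y) ≤ X (i - 1) ((X (i - 1)).symm y) := (X (i - 1)).monotone (hi _)
    _ = y := by rw [OrderIso.apply_symm_apply]

lemma Wave.step_U (W : Wave U X) (k : ZMod m) (y : Ω) (hy : U y) : U (step X k y) :=
  W.inv _ _ (W.inv' _ _ hy)

/-- The basic comparison. -/
lemma Wave.basic (W : Wave U X) {y : Ω} {i j : ZMod m} (hy : U y)
    (hj : ∀ k, (X k).symm y ≤ (X j).symm y)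
    (hi : ∀ k, (X i).symm (step X j y) ≤ (X k).symm (step X j y)) :
    (X (i + 1)).symm (step X j y) ≤ (X (j + 1)).symm y := by
  by_contra hn
  push Not at hn
  have h1 := W.cross' _ _ i j (W.step_U j y hy) hy hi hj hn
  exact absurd (h1.trans_le (step_le _ i hi)) (lt_irrefl _)

section exists_

variable [NeZero m]

lemma exists_first (X : ZMod m → Ω ≃o Ω) (y : Ω) : ∃ i, ∀ k, (X i).symm y ≤ (X k).symm y :=
  Finite.exists_min (fun k => (X k).symm y)

lemma exists_last (X : ZMod m → Ω ≃o Ω) (y : Ω) : ∃ j, ∀ k, (X k).symm y ≤ (X j).symm y :=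
  Finite.exists_max (fun k => (X k).symm y)

end exists_

section five

variable {X : ZMod 5 → Ω ≃o Ω}

lemma five_aux : ∀ i j : ZMod 5, (j ≠ i ∧ j ≠ i + 1 ∧ j ≠ i - 1) →
    (j - 1 ≠ i ∧ j - 1 ≠ i + 1 ∧ j - 1 ≠ i - 1) → i = j + 2 := by
  decide

/-- From the last corner to the first one. -/
lemma Wave.last_first (W : Wave U X) {y : Ω} {j : ZMod 5} (hy : U y)
    (hj : ∀ k, (X k).symm y ≤ (X j).symm y) :
    ∀ k, (X (j + 2)).symm (step X j y) ≤ (X k).symm (step X j y) := by
  obtain ⟨i, hi⟩ := exists_first X (step X j y)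
  have hb := W.basic hy hj hi
  have h0 := le_step y j hj
  have h1 := hj (j + 1)
  have h2 := step_symm (X := X) j y
  suffices h : (X (j + 2)).symm (step X j y) ≤ (X i).symm (step X j y) from
    fun k => h.trans (hi k)
  rcases h0.eq_or_lt with h0 | h0
  · -- both `j` and `j - 1` are last
    rw [← h0] at hi h2 ⊢
    have h3 : ∀ k, (X k).symm y ≤ (X (j - 1)).symm y := by
      rw [h2]
      exact hj
    have : i = j + 2 := five_aux i j (W.apart y i j hy hi hj) (W.apart y i (j - 1) hy hi h3)
    rw [this]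
  · have key : i = j ∨ i = j + 1 ∨ i = j + 2 ∨ i = j + 3 ∨ i = j + 4 := by
      generalize i = i
      generalize j = j
      revert i j
      decide
    have hlt : ∀ k, (X k).symm y < (X k).symm (step X j y) := fun k => (X k).symm.strictMono h0
    rcases key with rfl | rfl | rfl | rfl | rfl
    · exact absurd hb (not_le.mpr (hlt _))
    · exact absurd ((hi (j + 1 + 1)).trans hb) (not_le.mpr (hlt _))
    · exact le_rfl
    · -- `i + 1 = j - 1`
      have e1 : j + 3 + 1 = j - 1 := by
        generalize j = j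
        revert j
        decide
      have e2 : j + 3 - 1 = j + 2 := by
        generalize j = j
        revert j
        decide
      rw [e1] at hb
      have h3 : (X (j + 1)).symm y ≤ (X (j + 3 + 1)).symm (step X j y) := by
        rw [e1, h2]
        exact h1
      have h4 := W.cross _ _ (j + 3) j (W.step_U j y hy) hy hi hj h3
      rw [e2] at h4
      have h5 : (X (j + 2)).symm (step X j y) ≤ (X (j + 3)).symm (step X j y) := by
        rw [OrderIso.symm_apply_le]
        exact h4
      exact h5
    · have e1 : j + 4 + 1 = j := by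
        generalize j = j
        revert j
        decide
      rw [e1] at hb
      exact absurd (hb.trans h1) (not_le.mpr (hlt _))

lemma Wave.first_last (W : Wave U X) {y : Ω} {i : ZMod 5} (hy : U y)
    (hi : ∀ k, (X i).symm y ≤ (X k).symm y) :
    ∀ k, (X k).symm (step X i y) ≤ (X (i + 2)).symm (step X i y) :=
  W.dual.last_first (y := OrderDual.toDual y) hy hi

/-- Two steps from the first corner. -/
lemma Wave.up (W : Wave U X) {y : Ω} {i : ZMod 5} (hy : U y)
    (hi : ∀ k, (X i).symm y ≤ (X k).symm y) : y ≤ step X (i + 2) (step X i y) := by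
  have hl := W.first_last hy hi
  have h0 := le_step _ _ hl
  have h1 : (X (i + 1)).symm y ≤ (X (i + 2 + 1)).symm (step X i y) := by
    by_contra hn
    push Not at hn
    have h2 := W.cross' _ _ i (i + 2) hy (W.step_U i y hy) hi hl hn
    exact absurd (h2.trans_le h0) (lt_irrefl _)
  have h2 := step_symm (X := X) (i + 2) (step X i y)
  have e1 : i + 2 - 1 = i + 1 := by ring
  rw [e1] at h2
  rw [← (X (i + 1)).symm.le_iff_le, h2]
  exact h1.trans (hl _)

lemma Wave.down (W : Wave U X) {y : Ω} {j : ZMod 5} (hy : U y)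
    (hj : ∀ k, (X k).symm y ≤ (X j).symm y) : step X (j + 2) (step X j y) ≤ y :=
  W.dual.up (y := OrderDual.toDual y) hy hj

/-- Five corners. -/
theorem Wave.five (W : Wave U X) (y : Ω) : ¬ U y := by
  intro hy
  obtain ⟨j, hj⟩ := exists_last X y
  have u1 := W.step_U j y hy
  have f1 := W.last_first hy hj
  have u2 := W.step_U (j + 2) _ u1
  have l2 := W.first_last u1 f1
  have u3 := W.step_U (j + 2 + 2) _ u2
  have f3 := W.last_first u2 l2
  have u4 := W.step_U (j + 2 + 2 + 2) _ u3
  have l4 := W.first_last u3 f3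
  have u5 := W.step_U (j + 2 + 2 + 2 + 2) _ u4
  have f5 := W.last_first u4 l4
  have hup1 := W.up u1 f1
  have hup3 := W.up u3 f3
  have hdn2 := W.down u2 l2
  have hdn4 := W.down u4 l4
  have h01 := le_step _ _ hj
  have h12 := step_le _ _ f1
  have h05 : y ≤ _ := h01.trans (hup1.trans hup3)
  have e5 : j + 2 + 2 + 2 + 2 + 2 = j := by
    generalize j = j
    revert j
    decide
  rw [e5] at hdn4
  have h16 : step X j y ≤ step X j (step X (j + 2 + 2 + 2 + 2)
      (step X (j + 2 + 2 + 2) (step X (j + 2 + 2) (step X (j + 2) (step X j y))))) :=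
    (X (j - 1)).monotone ((X j).symm.monotone h05)
  have h14 : step X j y ≤
      step X (j + 2 + 2 + 2) (step X (j + 2 + 2) (step X (j + 2) (step X j y))) := h16.trans hdn4
  have h24 : step X (j + 2 + 2 + 2) (step X (j + 2 + 2) (step X (j + 2) (step X j y))) =
      step X j y := le_antisymm (hdn2.trans h12) h14
  rw [h24] at l4
  obtain ⟨-, h, -⟩ := W.apart _ _ _ u1 f1 l4
  apply h
  generalize j = j
  revert j
  decide

end five

section four

variable {X : ZMod 4 → Ω ≃o Ω}

lemma four_aux : ∀ i j : ZMod 4, (j ≠ i ∧ j ≠ i + 1 ∧ j ≠ i - 1) →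
    ¬ (j + 1 ≠ i ∧ j + 1 ≠ i + 1 ∧ j + 1 ≠ i - 1) := by
  decide

lemma Wave.four_last (W : Wave U X) {y : Ω} {j : ZMod 4} (hy : U y)
    (hj : ∀ k, (X k).symm y ≤ (X j).symm y) (h : ∀ k, (X k).symm y ≤ (X (j + 1)).symm y) :
    False := by
  obtain ⟨i, hi⟩ := exists_first X y
  exact four_aux i j (W.apart y i j hy hi hj) (W.apart y i (j + 1) hy hi h)

/-- Four corners. -/
theorem Wave.four (W : Wave U X) (y : Ω) : ¬ U y := by
  intro hy
  obtain ⟨j, hj⟩ := exists_last X y
  obtain ⟨i, hi⟩ := exists_first X (step X j y)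
  have hb := W.basic hy hj hi
  have h0 := le_step y j hj
  have h1 := hj (j + 1)
  have h2 := step_symm (X := X) j y
  rcases h0.eq_or_lt with h0 | h0
  · rw [← h0] at h2
    refine W.four_last (j := j - 1) hy ?_ ?_
    · rw [h2]
      exact hj
    · rw [sub_add_cancel]
      exact hj
  · have key : i = j ∨ i = j + 1 ∨ i = j + 2 ∨ i = j + 3 := by
      generalize i = i
      generalize j = j
      revert i j
      decide
    have hlt : ∀ k, (X k).symm y < (X k).symm (step X j y) := fun k => (X k).symm.strictMono h0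
    rcases key with rfl | rfl | rfl | rfl
    · exact absurd hb (not_le.mpr (hlt _))
    · exact absurd ((hi (j + 1 + 1)).trans hb) (not_le.mpr (hlt _))
    · have e1 : j + 2 + 1 = j - 1 := by
        generalize j = j
        revert j
        decide
      rw [e1, h2] at hb
      refine W.four_last (j := j) hy hj ?_
      intro k
      exact (hj k).trans hb
    · have e1 : j + 3 + 1 = j := by
        generalize j = j
        revert j
        decide
      rw [e1] at hb
      exact absurd (hb.trans h1) (not_le.mpr (hlt _))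

end four

/-- At most five corners. -/
theorem Wave.main (W : Wave U X) (h0 : 0 < m) (h5 : m ≤ 5) (y : Ω) : ¬ U y := by
  have : NeZero m := ⟨h0.ne'⟩
  interval_cases m
  · intro hy
    obtain ⟨j, hj⟩ := exists_last X y
    obtain ⟨i, hi⟩ := exists_first X y
    exact (W.apart y i j hy hi hj).1 (Subsingleton.elim _ _)
  · intro hy
    obtain ⟨j, hj⟩ := exists_last X y
    obtain ⟨i, hi⟩ := exists_first X y
    obtain ⟨a1, a2, a3⟩ := W.apart y i j hy hi hj
    revert a1 a2 a3
    generalize i = i
    generalize j = j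
    revert i j
    decide
  · intro hy
    obtain ⟨j, hj⟩ := exists_last X y
    obtain ⟨i, hi⟩ := exists_first X y
    obtain ⟨a1, a2, a3⟩ := W.apart y i j hy hi hj
    revert a1 a2 a3
    generalize i = i
    generalize j = j
    revert i j
    decide
  · exact W.four y
  · exact W.five y

end Pool.Agent.Helper31.PENT
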