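import Mathlib
import Pool.Agent.Helper31.PENT.Defs
import Pool.Agent.Helper31.TRI.Rules

/-!
What the fillings mean for an action on a complete linear order.
-/

set_option autoImplicit false

namespace Pool.Agent.Helper31.PENT

open Pool.Agent.Helper42.Th
open Pool.Agent.Helper31.OrderAct
open Pool.Agent.Helper71.Rot
open Pool.Agent.Helper71.Tree

variable {E : Type} {Γ : CMap E} {A : Set E} {m : ℕ} {σ : ZMod m → E}

/-- What the fillings mean for the action. -/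
structure Rules {Ω : Type*} [LinearOrder Ω] (Γ : CMap E) (σ : ZMod m → E) (A : Set E)
    (X Y : E → Ω ≃o Ω) : Prop where
  x_rot : ∀ d z, X (Γ.rot d) z = X d z
  y_rot : ∀ d z, Y (Γ.flip (Γ.rot d)) z = Y d z
  out : ∀ d z, ¬ Inside Γ A d → d ∉ A → X (Γ.flip d) z ≤ X d z → Y (Γ.flip d) z ≤ Y d z
  out' : ∀ d z, ¬ Inside Γ A d → d ∉ A → X d z ≤ X (Γ.flip d) z → Y d z ≤ Y (Γ.flip d) z
  out_str : ∀ d z, ¬ Inside Γ A d → d ∉ A → Y (Γ.flip d) z = Y d z → X (Γ.flip d) z = X d z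
  inn : ∀ d z, Inside Γ A d → X (Γ.flip d) z ≤ X d z → Y d z ≤ Y (Γ.flip d) z
  inn' : ∀ d z, Inside Γ A d → X d z ≤ X (Γ.flip d) z → Y (Γ.flip d) z ≤ Y d z
  inn_str : ∀ d z, Inside Γ A d → Y (Γ.flip d) z = Y d z → X (Γ.flip d) z = X d z
  side : ∀ k z w, z ≤ w → X (Γ.flip (σ k)) w = X (σ k) z → Y (Γ.flip (σ k)) w ≤ Y (σ k) z
  side' : ∀ k z w, z ≤ w → X (σ k) w = X (Γ.flip (σ k)) z → Y (σ k) w ≤ Y (Γ.flip (σ k)) z
  leg : ∀ e ∈ A, ∀ z w, z ≤ w → Y e w = Y (Γ.flip e) z → X (Γ.flip e) w ≤ X e z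
  leg' : ∀ e ∈ A, ∀ z w, z ≤ w → Y (Γ.flip e) w = Y e z → X e w ≤ X (Γ.flip e) z

/-- The rules for the opposite order. -/
lemma Rules.dual {Ω : Type*} [LinearOrder Ω] {X Y : E → Ω ≃o Ω} (R : Rules Γ σ A X Y) :
    Rules Γ σ A (fun d => (X d).dual) (fun d => (Y d).dual) where
  x_rot d z := congrArg OrderDual.toDual (R.x_rot d (OrderDual.ofDual z))
  y_rot d z := congrArg OrderDual.toDual (R.y_rot d (OrderDual.ofDual z))
  out d z h1 h2 h := R.out' d (OrderDual.ofDual z) h1 h2 h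
  out' d z h1 h2 h := R.out d (OrderDual.ofDual z) h1 h2 h
  out_str d z h1 h2 h := congrArg OrderDual.toDual
    (R.out_str d (OrderDual.ofDual z) h1 h2 (OrderDual.toDual.injective h))
  inn d z h1 h := R.inn' d (OrderDual.ofDual z) h1 h
  inn' d z h1 h := R.inn d (OrderDual.ofDual z) h1 h
  inn_str d z h1 h := congrArg OrderDual.toDual
    (R.inn_str d (OrderDual.ofDual z) h1 (OrderDual.toDual.injective h))
  side k z w hzw h := R.side' k (OrderDual.ofDual w) (OrderDual.ofDual z) hzw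
    (OrderDual.toDual.injective h).symm
  side' k z w hzw h := R.side k (OrderDual.ofDual w) (OrderDual.ofDual z) hzw
    (OrderDual.toDual.injective h).symm
  leg e he z w hzw h := R.leg' e he (OrderDual.ofDual w) (OrderDual.ofDual z) hzw
    (OrderDual.toDual.injective h).symm
  leg' e he z w hzw h := R.leg e he (OrderDual.ofDual w) (OrderDual.ofDual z) hzw
    (OrderDual.toDual.injective h).symm

section pair

variable {Ω : Type*} [CompleteLinearOrder Ω] {G : Type*} [Group G]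
  (L : Lab G Γ) (ρ : G →* (Ω ≃o Ω))

lemma Yi_M (d : E) (z : Ω) : ly L ρ d (ρ (L.M d)⁻¹ z) = ly L ρ (Γ.flip d) z := by
  have h := Y_M L ρ d (ρ (L.M d)⁻¹ z)
  rw [← h, map_inv, RelIso.apply_inv_self]

lemma comm_DMi (d : E) : ρ (L.D d) * ρ (L.M d)⁻¹ = ρ (L.M d)⁻¹ * ρ (L.D d) := by
  have h : Commute (L.M d) (L.D d) := comm_MD L d
  rw [← map_mul, ← map_mul]
  exact congrArg ρ h.inv_left.eq.symm

lemma comm_MD' (d : E) : ρ (L.M d) * ρ (L.D d) = ρ (L.D d) * ρ (L.M d) := by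
  have h : Commute (L.M d) (L.D d) := comm_MD L d
  rw [← map_mul, ← map_mul]
  exact congrArg ρ h.eq

/-- A positive edge. -/
def PairPos (Γ : CMap E) (X Y : E → Ω ≃o Ω) (d : E) : Prop :=
  (∀ z, X (Γ.flip d) z ≤ X d z → Y (Γ.flip d) z ≤ Y d z) ∧
    (∀ z, X d z ≤ X (Γ.flip d) z → Y d z ≤ Y (Γ.flip d) z) ∧
    ∀ z, Y (Γ.flip d) z = Y d z → X (Γ.flip d) z = X d z

/-- A negative edge. -/
def PairNeg (Γ : CMap E) (X Y : E → Ω ≃o Ω) (d : E) : Prop :=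
  (∀ z, X (Γ.flip d) z ≤ X d z → Y d z ≤ Y (Γ.flip d) z) ∧
    (∀ z, X d z ≤ X (Γ.flip d) z → Y (Γ.flip d) z ≤ Y d z) ∧
    ∀ z, Y (Γ.flip d) z = Y d z → X (Γ.flip d) z = X d z

/-- A side of the polygon. -/
def PairSide (Γ : CMap E) (X Y : E → Ω ≃o Ω) (d : E) : Prop :=
  (∀ z w, z ≤ w → X (Γ.flip d) w = X d z → Y (Γ.flip d) w ≤ Y d z) ∧
    ∀ z w, z ≤ w → X d w = X (Γ.flip d) z → Y d w ≤ Y (Γ.flip d) z

/-- A leg. -/
def PairLeg (Γ : CMap E) (X Y : E → Ω ≃o Ω) (d : E) : Prop :=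
  (∀ z w, z ≤ w → Y d w = Y (Γ.flip d) z → X (Γ.flip d) w ≤ X d z) ∧
    ∀ z w, z ≤ w → Y (Γ.flip d) w = Y d z → X d w ≤ X (Γ.flip d) z

lemma PairPos.flip {X Y : E → Ω ≃o Ω} {d : E} (h : PairPos Γ X Y d) :
    PairPos Γ X Y (Γ.flip d) := by
  obtain ⟨h1, h2, h3⟩ := h
  unfold PairPos
  rw [Γ.flip_flip]
  exact ⟨h2, h1, fun z hz => (h3 z hz.symm).symm⟩

lemma PairNeg.flip {X Y : E → Ω ≃o Ω} {d : E} (h : PairNeg Γ X Y d) :
    PairNeg Γ X Y (Γ.flip d) := by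
  obtain ⟨h1, h2, h3⟩ := h
  unfold PairNeg
  rw [Γ.flip_flip]
  exact ⟨h2, h1, fun z hz => (h3 z hz.symm).symm⟩

lemma PairSide.flip {X Y : E → Ω ≃o Ω} {d : E} (h : PairSide Γ X Y d) :
    PairSide Γ X Y (Γ.flip d) := by
  obtain ⟨h1, h2⟩ := h
  unfold PairSide
  rw [Γ.flip_flip]
  exact ⟨h2, h1⟩

lemma PairLeg.flip {X Y : E → Ω ≃o Ω} {d : E} (h : PairLeg Γ X Y d) :
    PairLeg Γ X Y (Γ.flip d) := by
  obtain ⟨h1, h2⟩ := h
  unfold PairLeg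
  rw [Γ.flip_flip]
  exact ⟨h2, h1⟩

/-- The positions of `z` and `D z`. -/
lemma x_le_iff (d : E) (z w : Ω) : w ≤ ρ (L.D d) z ↔ lx L ρ (Γ.flip d) w ≤ lx L ρ d z := by
  rw [← X_D L ρ d z]
  exact (lx L ρ (Γ.flip d)).le_iff_le.symm

lemma x_ge_iff (d : E) (z w : Ω) : ρ (L.D d) z ≤ w ↔ lx L ρ d z ≤ lx L ρ (Γ.flip d) w := by
  rw [← X_D L ρ d z]
  exact (lx L ρ (Γ.flip d)).le_iff_le.symm

lemma y_le_iff (d : E) (z w : Ω) : w ≤ ρ (L.M d) z ↔ ly L ρ (Γ.flip d) w ≤ ly L ρ d z := by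
  rw [← Y_M L ρ d z]
  exact (ly L ρ (Γ.flip d)).le_iff_le.symm

lemma y_ge_iff (d : E) (z w : Ω) : ρ (L.M d) z ≤ w ↔ ly L ρ d z ≤ ly L ρ (Γ.flip d) w := by
  rw [← Y_M L ρ d z]
  exact (ly L ρ (Γ.flip d)).le_iff_le.symm

lemma yi_le_iff (d : E) (z w : Ω) : w ≤ ρ (L.M d)⁻¹ z ↔ ly L ρ d w ≤ ly L ρ (Γ.flip d) z := by
  rw [← Yi_M L ρ d z]
  exact (ly L ρ d).le_iff_le.symm

lemma yi_ge_iff (d : E) (z w : Ω) : ρ (L.M d)⁻¹ z ≤ w ↔ ly L ρ (Γ.flip d) z ≤ ly L ρ d w := by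
  rw [← Yi_M L ρ d z]
  exact (ly L ρ d).le_iff_le.symm

lemma pairPos_of {d : E} (h : ∀ z, (z ≤ ρ (L.D d) z → z ≤ ρ (L.M d) z) ∧
    (ρ (L.D d) z ≤ z → ρ (L.M d) z ≤ z) ∧ (ρ (L.M d) z = z → ρ (L.D d) z = z)) :
    PairPos Γ (lx L ρ) (ly L ρ) d := by
  refine ⟨fun z hz => ?_, fun z hz => ?_, fun z hz => ?_⟩
  · rw [← y_le_iff]
    exact (h z).1 ((x_le_iff L ρ d z z).mpr hz)
  · rw [← y_ge_iff]
    exact (h z).2.1 ((x_ge_iff L ρ d z z).mpr hz)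
  · have h1 := (h z).2.2 (le_antisymm ((y_ge_iff L ρ d z z).mpr hz.ge)
      ((y_le_iff L ρ d z z).mpr hz.le))
    exact le_antisymm ((x_le_iff L ρ d z z).mp h1.ge) ((x_ge_iff L ρ d z z).mp h1.le)

lemma pairNeg_of {d : E} (h : ∀ z, (z ≤ ρ (L.D d) z → z ≤ ρ (L.M d)⁻¹ z) ∧
    (ρ (L.D d) z ≤ z → ρ (L.M d)⁻¹ z ≤ z) ∧ (ρ (L.M d)⁻¹ z = z → ρ (L.D d) z = z)) :
    PairNeg Γ (lx L ρ) (ly L ρ) d := by
  refine ⟨fun z hz => ?_, fun z hz => ?_, fun z hz => ?_⟩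
  · rw [← yi_le_iff]
    exact (h z).1 ((x_le_iff L ρ d z z).mpr hz)
  · rw [← yi_ge_iff]
    exact (h z).2.1 ((x_ge_iff L ρ d z z).mpr hz)
  · have h1 := (h z).2.2 (le_antisymm ((yi_ge_iff L ρ d z z).mpr hz.le)
      ((yi_le_iff L ρ d z z).mpr hz.ge))
    exact le_antisymm ((x_le_iff L ρ d z z).mp h1.ge) ((x_ge_iff L ρ d z z).mp h1.le)

lemma pairSide_of {d : E} (h : ∀ z, (z ≤ ρ (L.D d) z → ρ (L.D d) z ≤ ρ (L.M d) z) ∧
    (ρ (L.D d) z ≤ z → ρ (L.M d) z ≤ ρ (L.D d) z)) : PairSide Γ (lx L ρ) (ly L ρ) d := by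
  refine ⟨fun z w hzw hw => ?_, fun z w hzw hw => ?_⟩
  · have e1 : ρ (L.D d) z = w := le_antisymm ((x_ge_iff L ρ d z w).mpr hw.ge)
      ((x_le_iff L ρ d z w).mpr hw.le)
    rw [← y_le_iff, ← e1]
    exact (h z).1 (by rw [e1]; exact hzw)
  · have e1 : ρ (L.D d) w = z := le_antisymm ((x_ge_iff L ρ d w z).mpr hw.le)
      ((x_le_iff L ρ d w z).mpr hw.ge)
    rw [← y_ge_iff]
    exact ((h w).2 (by rw [e1]; exact hzw)).trans e1.le

lemma pairLeg_of {d : E} (h : ∀ z, (z ≤ ρ (L.M d)⁻¹ z → ρ (L.M d)⁻¹ z ≤ ρ (L.D d) z) ∧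
    (ρ (L.M d)⁻¹ z ≤ z → ρ (L.D d) z ≤ ρ (L.M d)⁻¹ z)) : PairLeg Γ (lx L ρ) (ly L ρ) d := by
  refine ⟨fun z w hzw hw => ?_, fun z w hzw hw => ?_⟩
  · have e1 : ρ (L.M d)⁻¹ z = w := le_antisymm ((yi_ge_iff L ρ d z w).mpr hw.ge)
      ((yi_le_iff L ρ d z w).mpr hw.le)
    rw [← x_le_iff, ← e1]
    exact (h z).1 (by rw [e1]; exact hzw)
  · have e1 : ρ (L.M d)⁻¹ w = z := le_antisymm ((yi_ge_iff L ρ d w z).mpr hw.le)
      ((yi_le_iff L ρ d w z).mpr hw.ge)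
    rw [← x_ge_iff]
    exact ((h w).2 (by rw [e1]; exact hzw)).trans e1.le

/-- From a slope which is at least one in absolute value to a sign. -/
lemma all_of_side {D M : Ω ≃o Ω} (h : ∀ z, (z ≤ D z → D z ≤ M z) ∧ (D z ≤ z → M z ≤ D z)) (z : Ω) :
    (z ≤ D z → z ≤ M z) ∧ (D z ≤ z → M z ≤ z) ∧ (M z = z → D z = z) := by
  obtain ⟨h3, h4⟩ := h z
  refine ⟨fun h5 => h5.trans (h3 h5), fun h5 => (h4 h5).trans h5, fun h5 => ?_⟩
  rcases le_total z (D z) with h6 | h6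
  · exact le_antisymm ((h3 h6).trans h5.le) h6
  · exact le_antisymm h6 (h5.ge.trans (h4 h6))

/-- From a slope which is at most one in absolute value to a sign. -/
lemma all_of_leg {D M : Ω ≃o Ω} (h : ∀ z, (z ≤ M z → M z ≤ D z) ∧ (M z ≤ z → D z ≤ M z)) (z : Ω) :
    (z ≤ D z → z ≤ M z) ∧ (D z ≤ z → M z ≤ z) ∧ (M z = z → D z = z) := by
  obtain ⟨h2, h3⟩ := h z
  refine ⟨fun h4 => ?_, fun h4 => ?_, fun h4 => le_antisymm ?_ ?_⟩
  · by_contra hn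
    push Not at hn
    exact absurd (h4.trans (h3 hn.le)) (not_le.mpr hn)
  · by_contra hn
    push Not at hn
    exact absurd ((h2 hn.le).trans h4) (not_le.mpr hn)
  · exact (h3 h4.le).trans h4.le
  · exact h4.ge.trans (h2 h4.ge)

end pair

section fill

variable {Ω : Type*} [CompleteLinearOrder Ω] {G : Type*} [Group G]
  (L : Lab G Γ) (ρ : G →* (Ω ≃o Ω)) {P : Set E} {F : E → Set G}

lemma not_inside_flip {d : E} (h1 : ¬ Inside Γ A d) (h2 : d ∉ A) :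
    ¬ Inside Γ A (Γ.flip d) ∧ Γ.flip d ∉ A := by
  refine ⟨fun h => h1 ?_, fun h => h1 ?_⟩
  · have h3 := Inside.pass _ h (by rwa [Γ.flip_flip])
    rwa [Γ.flip_flip] at h3
  · have h3 := Inside.leg (Γ := Γ) _ h
    rwa [Γ.flip_flip] at h3

lemma side_or (H : Polygon Γ σ A) {d : E} (hk : ∃ k, σ k = d ∨ σ k = Γ.flip d) :
    ¬ Inside Γ A d ∧ d ∉ A := by
  obtain ⟨k, rfl | hk⟩ := hk
  · exact ⟨H.out k, H.not_leg k⟩
  · have h1 := not_inside_flip (H.out k) (H.not_leg k)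
    rw [hk, Γ.flip_flip] at h1
    exact h1

lemma rules_of_filled (h : Filled L σ A P F) :
    Rules Γ σ A (lx L ρ) (ly L ρ) := by
  have leg0 : ∀ d ∈ P, d ∈ A ∨ Γ.flip d ∈ A → ∀ z,
      (z ≤ ρ (L.M d)⁻¹ z → ρ (L.M d)⁻¹ z ≤ ρ (L.D d) z) ∧
      (ρ (L.M d)⁻¹ z ≤ z → ρ (L.D d) z ≤ ρ (L.M d)⁻¹ z) := fun d hd hA z =>
    TRI.one_rules (spec_of_fill ρ (h.leg d hd hA)) (comm_DMi L ρ d) z
  have side0 : ∀ d ∈ P, (∃ k, σ k = d ∨ σ k = Γ.flip d) → ∀ z,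
      (z ≤ ρ (L.D d) z → ρ (L.D d) z ≤ ρ (L.M d) z) ∧
      (ρ (L.D d) z ≤ z → ρ (L.M d) z ≤ ρ (L.D d) z) := fun d hd hA z =>
    TRI.one_rules (spec_of_fill ρ (h.side d hd hA)) (comm_MD' L ρ d) z
  -- the pairs
  have hleg : ∀ e ∈ A, PairLeg Γ (lx L ρ) (ly L ρ) e := by
    intro e he
    rcases h.cover e with hd | hd
    · exact pairLeg_of L ρ (leg0 e hd (Or.inl he))
    · have h1 := (pairLeg_of L ρ (leg0 _ hd (Or.inr (by rwa [Γ.flip_flip])))).flip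
      rwa [Γ.flip_flip] at h1
  have hside : ∀ k, PairSide Γ (lx L ρ) (ly L ρ) (σ k) := by
    intro k
    rcases h.cover (σ k) with hd | hd
    · exact pairSide_of L ρ (side0 _ hd ⟨k, Or.inl rfl⟩)
    · have h1 := (pairSide_of L ρ (side0 _ hd ⟨k, Or.inr (by rw [Γ.flip_flip])⟩)).flip
      rwa [Γ.flip_flip] at h1
  have hpos0 : ∀ d ∈ P, ¬ Inside Γ A d → d ∉ A → PairPos Γ (lx L ρ) (ly L ρ) d := by
    intro d hd h1 h2
    by_cases h3 : ∃ k, σ k = d ∨ σ k = Γ.flip d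
    · exact pairPos_of L ρ (all_of_side (side0 d hd h3))
    · push Not at h3
      exact pairPos_of L ρ (TRI.pos_rules (spec_of_fill ρ (h.outer d hd h2
        (not_inside_flip h1 h2).2 h1 h3)) (comm_MD' L ρ d))
  have hpos : ∀ d, ¬ Inside Γ A d → d ∉ A → PairPos Γ (lx L ρ) (ly L ρ) d := by
    intro d h1 h2
    rcases h.cover d with hd | hd
    · exact hpos0 d hd h1 h2
    · obtain ⟨h3, h4⟩ := not_inside_flip h1 h2
      have h5 := (hpos0 _ hd h3 h4).flip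
      rwa [Γ.flip_flip] at h5
  have hneg0 : ∀ d ∈ P, (Inside Γ A d ∨ Inside Γ A (Γ.flip d)) →
      PairNeg Γ (lx L ρ) (ly L ρ) d := by
    intro d hd h1
    by_cases h3 : d ∈ A ∨ Γ.flip d ∈ A
    · exact pairNeg_of L ρ (all_of_leg (leg0 d hd h3))
    · push Not at h3
      have h4 : Inside Γ A d := by
        rcases h1 with h1 | h1
        · exact h1
        · have h5 := Inside.pass _ h1 (by rw [Γ.flip_flip]; exact h3.1)
          rwa [Γ.flip_flip] at h5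
      exact pairNeg_of L ρ (TRI.pos_rules (spec_of_fill ρ (h.inner d hd h3.1 h3.2 h4))
        (comm_DMi L ρ d).symm)
  have hneg : ∀ d, Inside Γ A d → PairNeg Γ (lx L ρ) (ly L ρ) d := by
    intro d h1
    rcases h.cover d with hd | hd
    · exact hneg0 d hd (Or.inl h1)
    · have h5 := (hneg0 _ hd (Or.inr (by rwa [Γ.flip_flip]))).flip
      rwa [Γ.flip_flip] at h5
  refine ⟨?_, ?_, fun d z h1 h2 => (hpos d h1 h2).1 z, fun d z h1 h2 => (hpos d h1 h2).2.1 z,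
    fun d z h1 h2 => (hpos d h1 h2).2.2 z, fun d z h1 => (hneg d h1).1 z,
    fun d z h1 => (hneg d h1).2.1 z, fun d z h1 => (hneg d h1).2.2 z,
    fun k => (hside k).1, fun k => (hside k).2, fun e he => (hleg e he).1,
    fun e he => (hleg e he).2⟩
  · intro d z
    change ρ (L.x (Γ.rot d)) z = ρ (L.x d) z
    rw [L.x_rot]
  · intro d z
    change ρ (L.y (Γ.flip (Γ.rot d))) z = ρ (L.y d) z
    rw [L.y_rot]

end fill

end Pool.Agent.Helper31.PENT
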