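import Mathlib
import Pool.Agent.Helper31.PENT.Rules
import Pool.Agent.Helper42.Th.Max

/-!
The maximum principle inside and outside of the polygon.
-/

set_option autoImplicit false

namespace Pool.Agent.Helper31.PENT

open Pool.Agent.Helper42.Th

variable {E : Type} [Finite E] {Γ : CMap E} {A : Set E} {m : ℕ} {σ : ZMod m → E}

section comb

lemma chain {T : Type*} [LinearOrder T] (Γ : CMap E) (g : E → T) (W : Set E)
    (hW : ∀ d, Γ.rot d ∈ W ↔ d ∈ W) (g_rot : ∀ d, g (Γ.flip (Γ.rot d)) = g d)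
    (hle : ∀ d ∈ W, g (Γ.flip d) ≤ g d) : ∀ d ∈ W, g (Γ.flip d) = g d := by
  have hc := Harm.chain_const Γ g W (fun d hd => (hW d).mpr hd) (fun d hd => by
    have := hle _ ((hW d).mpr hd)
    rwa [g_rot] at this)
  intro d hd
  obtain ⟨c, rfl⟩ := Γ.rot.surjective d
  rw [g_rot, hc c ((hW c).mp hd)]

lemma rot_back (Γ : CMap E) (W : E → Prop) (h : ∀ d, W d → W (Γ.rot d)) (d : E)
    (hd : W (Γ.rot d)) : W d := by
  have hn : ∀ n : ℕ, W ((Γ.rot ^ n) (Γ.rot d)) := by
    intro n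
    induction n with
    | zero => exact hd
    | succ n ih =>
      rw [pow_succ', Equiv.Perm.mul_apply]
      exact h _ ih
  have h4 : 0 < orderOf Γ.rot := orderOf_pos _
  have h5 := hn (orderOf Γ.rot - 1)
  rwa [← Equiv.Perm.mul_apply, ← pow_succ,
    show orderOf Γ.rot - 1 + 1 = orderOf Γ.rot by omega, pow_orderOf_eq_one] at h5

lemma inside_rot (d : E) : Inside Γ A (Γ.rot d) ↔ Inside Γ A d :=
  ⟨rot_back Γ _ (fun d hd => Inside.rot d hd) d, Inside.rot d⟩

lemma inside_pow (n : ℕ) (d : E) : Inside Γ A ((Γ.rot ^ n) d) ↔ Inside Γ A d := by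
  induction n with
  | zero => exact Iff.rfl
  | succ n ih => rw [pow_succ', Equiv.Perm.mul_apply, inside_rot, ih]

/-- The leg at the corner `k`, if there is one. -/
def eg (Γ : CMap E) (σ : ZMod m → E) (k : ZMod m) : E := Γ.rot (Γ.flip (σ (k - 1)))

omit [Finite E] in
lemma Polygon.eg_or (H : Polygon Γ σ A) (k : ZMod m) :
    (eg Γ σ k = σ k ∧ eg Γ σ k ∉ A) ∨ (eg Γ σ k ∈ A ∧ Γ.rot (eg Γ σ k) = σ k) := by
  have h := H.step (k - 1)
  rw [sub_add_cancel] at h
  rcases h with h | h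
  · exact Or.inl ⟨h, by
      have := H.not_leg k
      rwa [← h] at this⟩
  · exact Or.inr h

omit [Finite E] in
lemma Polygon.rot_eg (H : Polygon Γ σ A) {k : ZMod m} (h : eg Γ σ k ∈ A) :
    Γ.rot (eg Γ σ k) = σ k := by
  rcases H.eg_or k with h1 | h1
  · exact absurd h h1.2
  · exact h1.2

omit [Finite E] in
lemma Polygon.leg_eg (H : Polygon Γ σ A) {e : E} (he : e ∈ A) : ∃ k, e = eg Γ σ k := by
  obtain ⟨k, hk⟩ := H.legs e he
  exact ⟨k + 1, by rw [eg, add_sub_cancel_right, hk]⟩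

lemma Polygon.not_inside_leg (H : Polygon Γ σ A) {e : E} (he : e ∈ A) : ¬ Inside Γ A e := by
  obtain ⟨k, rfl⟩ := H.leg_eg he
  rw [← inside_rot, H.rot_eg he]
  exact H.out k

omit [Finite E] in
lemma Polygon.size' (H : Polygon Γ σ A) : (1 : ZMod m) ≠ 0 ∧ (2 : ZMod m) ≠ 0 := by
  obtain ⟨h1, h2⟩ := H.size
  interval_cases m <;> decide

omit [Finite E] in
/-- No side runs back along the previous side. -/
lemma Polygon.back (H : Polygon Γ σ A) (k : ZMod m) : σ k ≠ Γ.flip (σ (k - 1)) := by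
  intro h
  have h1 : Γ.rot.SameCycle (σ (k - 1)) (σ (k + 1)) := by
    have h2 : Γ.flip (σ k) = σ (k - 1) := by rw [h, Γ.flip_flip]
    rw [← h2]
    rcases H.step k with h3 | h3
    · rw [← h3]
      exact Equiv.Perm.SameCycle.trans (Equiv.Perm.SameCycle.refl _ _)
        (Equiv.Perm.sameCycle_apply_right.mpr (Equiv.Perm.SameCycle.refl _ _))
    · rw [← h3.2]
      exact Equiv.Perm.sameCycle_apply_right.mpr
        (Equiv.Perm.sameCycle_apply_right.mpr (Equiv.Perm.SameCycle.refl _ _))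
  have h2 := H.ne _ _ h1
  apply H.size'.2
  have h3 : k + 1 - (k - 1) = 0 := by rw [h2, sub_self]
  rw [← h3]
  ring

omit [Finite E] in
lemma Polygon.sameCycle (H : Polygon Γ σ A) (k : ZMod m) :
    Γ.rot.SameCycle (Γ.flip (σ (k - 1))) (σ k) := by
  rcases H.eg_or k with h3 | h3
  · rw [← h3.1]
    exact Equiv.Perm.sameCycle_apply_right.mpr (Equiv.Perm.SameCycle.refl _ _)
  · rw [← h3.2]
    exact Equiv.Perm.sameCycle_apply_right.mpr
      (Equiv.Perm.sameCycle_apply_right.mpr (Equiv.Perm.SameCycle.refl _ _))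

/-- Going around a corner outside of the polygon, from the side `k` to the side `k - 1`. -/
lemma Polygon.arc (H : Polygon Γ σ A) {T : Type*} (r : T → T → Prop) (hr : ∀ a, r a a)
    (ht : ∀ a b c, r a b → r b c → r a c) (g : E → T) (g_rot : ∀ d, g (Γ.flip (Γ.rot d)) = g d)
    (k : ZMod m) (h : ∀ d, Γ.rot.SameCycle (σ k) d → d ∉ A → d ≠ σ k → d ≠ Γ.flip (σ (k - 1)) →
      r (g (Γ.flip d)) (g d)) : r (g (σ k)) (g (σ (k - 1))) := by
  classical
  have key : ∀ n : ℕ, (∀ i ≤ n, (Γ.rot ^ i) (σ k) ≠ Γ.flip (σ (k - 1))) →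
      r (g (σ k)) (g ((Γ.rot ^ n) (σ k))) := by
    intro n
    induction n with
    | zero => intro _; exact hr _
    | succ n ih =>
      intro hn
      have h1 := ih fun i hi => hn i (by omega)
      have h2 : (Γ.rot ^ (n + 1)) (σ k) = Γ.rot ((Γ.rot ^ n) (σ k)) := by
        rw [pow_succ', Equiv.Perm.mul_apply]
      have hnA : (Γ.rot ^ (n + 1)) (σ k) ∉ A := by
        intro hA
        obtain ⟨l, hl⟩ := H.leg_eg hA
        have h3 : Γ.rot.SameCycle (σ k) (σ l) := by
          rw [hl] at hA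
          rw [← H.rot_eg hA, ← hl]
          exact Equiv.Perm.sameCycle_apply_right.mpr
            (Equiv.Perm.sameCycle_pow_right.mpr (Equiv.Perm.SameCycle.refl _ _))
        have h4 := H.ne _ _ h3
        subst h4
        rw [h2, eg] at hl
        exact hn n (by omega) (Γ.rot.injective hl)
      refine ht _ _ _ h1 ?_
      have h3 := h _ (Equiv.Perm.sameCycle_pow_right.mpr (Equiv.Perm.SameCycle.refl _ _)) hnA ?_
        (hn _ le_rfl)
      · rw [h2, g_rot] at h3
        rw [h2]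
        exact h3
      · intro h5
        rcases H.eg_or k with h6 | h6
        · have h7 : Γ.rot ((Γ.rot ^ n) (σ k)) = Γ.rot (Γ.flip (σ (k - 1))) := by
            rw [← h2, h5]
            exact h6.1.symm
          exact hn n (by omega) (Γ.rot.injective h7)
        · have h7 : Γ.rot ((Γ.rot ^ n) (σ k)) = Γ.rot (eg Γ σ k) := by
            rw [h6.2, ← h2]
            exact h5
          have h8 := Γ.rot.injective h7
          rcases Nat.eq_zero_or_pos n with h9 | h9
          · subst h9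
            have h10 : σ k = eg Γ σ k := h8
            apply H.not_leg k
            rw [h10]
            exact h6.1
          · obtain ⟨l, rfl⟩ : ∃ l, n = l + 1 := ⟨n - 1, by omega⟩
            rw [pow_succ', Equiv.Perm.mul_apply, eg] at h8
            exact hn l (by omega) (Γ.rot.injective h8)
  -- the first arrival
  obtain ⟨n, hn⟩ : ∃ n : ℕ, (Γ.rot ^ n) (σ k) = Γ.flip (σ (k - 1)) := by
    obtain ⟨i, -, -, hi⟩ := (H.sameCycle k).symm.exists_pow_eq''
    exact ⟨i, hi⟩
  have hex : ∃ n : ℕ, (Γ.rot ^ n) (σ k) = Γ.flip (σ (k - 1)) := ⟨n, hn⟩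
  have hN := Nat.find_spec hex
  set N := Nat.find hex with hNdef
  have hN0 : N ≠ 0 := by
    intro h0
    rw [h0] at hN
    exact H.back k hN
  obtain ⟨l, hl⟩ : ∃ l, N = l + 1 := ⟨N - 1, by omega⟩
  have h1 := key l fun i hi hi2 => by
    have := Nat.find_min' hex hi2
    omega
  have h2 : g ((Γ.rot ^ l) (σ k)) = g (σ (k - 1)) := by
    have h3 := g_rot ((Γ.rot ^ l) (σ k))
    have h4 : Γ.rot ((Γ.rot ^ l) (σ k)) = Γ.flip (σ (k - 1)) := by
      rw [← Equiv.Perm.mul_apply, ← pow_succ', ← hl]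
      exact hN
    rw [h4, Γ.flip_flip] at h3
    exact h3.symm
  rw [h2] at h1
  exact h1

end comb

section max

variable {Ω : Type*} [LinearOrder Ω] {X Y : E → Ω ≃o Ω}

omit [Finite E] in
lemma Rules.x_corner (H : Polygon Γ σ A) (R : Rules Γ σ A X Y) (k : ZMod m) (z : Ω) :
    X (Γ.flip (σ (k - 1))) z = X (σ k) z := by
  rcases H.eg_or k with h | h
  · rw [← h.1, eg, R.x_rot]
  · rw [← h.2, R.x_rot, eg, R.x_rot]

omit [Finite E] in
lemma Rules.x_eg (H : Polygon Γ σ A) (R : Rules Γ σ A X Y) (k : ZMod m) (z : Ω) :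
    X (eg Γ σ k) z = X (σ k) z := by
  rw [eg, R.x_rot, R.x_corner H]

/-- Outside of the polygon, the maximum is attained at a corner. -/
lemma Rules.top_out (H : Polygon Γ σ A) (R : Rules Γ σ A X Y) (z : Ω) (k : ZMod m)
    (hk : ∀ l, X (σ l) z ≤ X (σ k) z) (d : E) (hd : ¬ Inside Γ A d) : X d z ≤ X (σ k) z := by
  obtain ⟨c, hc, hmax⟩ := Set.exists_max_image {d | ¬ Inside Γ A d} (fun d => X d z)
    (Set.toFinite _) ⟨d, hd⟩
  refine (hmax d hd).trans ?_
  by_contra hn
  push Not at hn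
  set W : Set E := {d | ¬ Inside Γ A d ∧ X d z = X c z} with hWd
  have hW : ∀ d, Γ.rot d ∈ W ↔ d ∈ W := by
    intro d
    change ¬ Inside Γ A (Γ.rot d) ∧ X (Γ.rot d) z = X c z ↔ ¬ Inside Γ A d ∧ X d z = X c z
    rw [inside_rot, R.x_rot]
  have hσ : ∀ l, σ l ∉ W := by
    rintro l ⟨-, h2⟩
    rw [← h2] at hn
    exact absurd (hk l) (not_le.mpr hn)
  have hA : ∀ d ∈ W, d ∉ A := by
    intro d hd hA
    obtain ⟨l, rfl⟩ := H.leg_eg hA
    apply hσ l
    rw [← H.rot_eg hA, hW]
    exact hd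
  have hle : ∀ d ∈ W, Y (Γ.flip d) z ≤ Y d z := by
    intro d hd
    refine R.out d z hd.1 (hA d hd) ?_
    rw [hd.2]
    exact hmax _ (not_inside_flip hd.1 (hA d hd)).1
  have heq := chain Γ (fun d => Y d z) W hW (fun d => R.y_rot d z) hle
  have huniv := Γ.conn W ⟨c, hc, rfl⟩ fun d hd => ⟨(hW d).mpr hd,
    (not_inside_flip hd.1 (hA d hd)).1, (R.out_str d z hd.1 (hA d hd) (heq d hd)).trans hd.2⟩
  apply hσ k
  rw [huniv]
  trivial

/-- The faces outside at the highest corner. -/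
lemma Rules.outer (H : Polygon Γ σ A) (R : Rules Γ σ A X Y) (z : Ω) (k : ZMod m)
    (hk : ∀ l, X (σ l) z ≤ X (σ k) z) : Y (σ k) z ≤ Y (σ (k - 1)) z := by
  refine H.arc (· ≤ ·) (fun a => le_rfl) (fun a b c h1 h2 => h1.trans h2) (fun d => Y d z)
    (fun d => R.y_rot d z) k fun d h1 h2 _ _ => ?_
  obtain ⟨i, -, -, rfl⟩ := h1.exists_pow_eq''
  have h3 : ¬ Inside Γ A ((Γ.rot ^ i) (σ k)) := by
    rw [inside_pow]
    exact H.out k
  have h4 : ∀ n : ℕ, X ((Γ.rot ^ n) (σ k)) z = X (σ k) z := by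
    intro n
    induction n with
    | zero => rfl
    | succ n ih => rw [pow_succ', Equiv.Perm.mul_apply, R.x_rot, ih]
  refine R.out _ z h3 h2 ?_
  rw [h4]
  exact R.top_out H z k hk _ (not_inside_flip h3 h2).1

/-- The faces next to the highest corner. -/
lemma Rules.first (H : Polygon Γ σ A) (R : Rules Γ σ A X Y) (y : Ω) (i : ZMod m)
    (hi : ∀ k, (X (σ i)).symm y ≤ (X (σ k)).symm y) (s : Ω)
    (hs : X (σ i) s = X (σ (i - 1)) ((X (σ i)).symm y)) :
    s ≤ (X (σ i)).symm y ∧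
      Y (Γ.flip (σ i)) ((X (σ (i + 1))).symm y) ≤ Y (Γ.flip (σ (i - 1))) s := by
  set t := (X (σ i)).symm y with ht
  have hk : ∀ l, X (σ l) t ≤ X (σ i) t := by
    intro l
    have h1 : X (σ i) t = y := by rw [ht, OrderIso.apply_symm_apply]
    rw [h1, ← OrderIso.le_symm_apply]
    exact hi l
  have hst : s ≤ t := by
    rw [← (X (σ i)).le_iff_le, hs]
    exact hk _
  refine ⟨hst, ?_⟩
  have h1 := R.side i t ((X (σ (i + 1))).symm y) (hi _) (by
    have h2 := R.x_corner H (i + 1) ((X (σ (i + 1))).symm y)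
    rw [add_sub_cancel_right] at h2
    rw [h2, OrderIso.apply_symm_apply, ht, OrderIso.apply_symm_apply])
  have h2 := R.outer H t i hk
  have h3 := R.side' (i - 1) s t hst (by
    rw [R.x_corner H, hs])
  exact h1.trans (h2.trans h3)

/-- The end of the leg at the highest corner. -/
lemma Rules.first_leg (H : Polygon Γ σ A) (R : Rules Γ σ A X Y) (y : Ω) (i : ZMod m)
    (hi : ∀ k, (X (σ i)).symm y ≤ (X (σ k)).symm y) (he : eg Γ σ i ∈ A) :
    X (Γ.flip (eg Γ σ i)) ((X (σ (i + 1))).symm y) ≤ X (σ (i - 1)) ((X (σ i)).symm y) := by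
  obtain ⟨s, hs⟩ := (X (σ i)).surjective (X (σ (i - 1)) ((X (σ i)).symm y))
  obtain ⟨h1, h2⟩ := R.first H y i hi s hs
  obtain ⟨w, hw⟩ := (Y (Γ.flip (σ i))).surjective (Y (Γ.flip (σ (i - 1))) s)
  rw [← hw, OrderIso.le_iff_le] at h2
  have e1 : Y (eg Γ σ i) w = Y (Γ.flip (σ i)) w := by
    rw [← R.y_rot, H.rot_eg he]
  have e2 : Y (Γ.flip (eg Γ σ i)) s = Y (Γ.flip (σ (i - 1))) s := R.y_rot _ _
  have h3 := R.leg _ he s w (h1.trans ((hi _).trans h2)) (by rw [e1, e2, hw])
  rw [R.x_eg H, hs] at h3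
  exact ((X _).monotone h2).trans h3

/-- The highest corner without a leg. -/
lemma Rules.first_none (H : Polygon Γ σ A) (R : Rules Γ σ A X Y) (y : Ω) (i : ZMod m)
    (hi : ∀ k, (X (σ i)).symm y ≤ (X (σ k)).symm y) (he : eg Γ σ i ∉ A) :
    (X (σ (i + 1))).symm y = (X (σ i)).symm y ∧ (X (σ (i - 1))).symm y = (X (σ i)).symm y := by
  obtain ⟨s, hs⟩ := (X (σ i)).surjective (X (σ (i - 1)) ((X (σ i)).symm y))
  obtain ⟨h1, h2⟩ := R.first H y i hi s hs
  have h3 : eg Γ σ i = σ i := by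
    rcases H.eg_or i with h | h
    · exact h.1
    · exact absurd h.1 he
  have e1 : ∀ w, Y (Γ.flip (σ i)) w = Y (Γ.flip (σ (i - 1))) w := by
    intro w
    rw [← h3]
    exact R.y_rot _ _
  rw [e1, OrderIso.le_iff_le] at h2
  have h4 : (X (σ (i + 1))).symm y = (X (σ i)).symm y := le_antisymm (h2.trans h1) (hi _)
  have h5 : s = (X (σ i)).symm y := le_antisymm h1 (h4 ▸ h2)
  refine ⟨h4, ?_⟩
  rw [h5, OrderIso.apply_symm_apply] at hs
  rw [OrderIso.symm_apply_eq]
  exact hs

/-- Walks inside the polygon. -/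
inductive Reach (Γ : CMap E) (A S : Set E) (a : E) : E → Prop
  | refl (h : a ∈ S) : Reach Γ A S a a
  | rot (d : E) (h : Reach Γ A S a d) : Reach Γ A S a (Γ.rot d)
  | pass (d : E) (h : Reach Γ A S a d) (h1 : Γ.flip d ∉ A) (h2 : Γ.flip d ∈ S) :
      Reach Γ A S a (Γ.flip d)

omit [Finite E] in
lemma Reach.inside {S : Set E} {a d : E} (h : Reach Γ A S a d) (ha : Inside Γ A a) :
    Inside Γ A d := by
  induction h with
  | refl _ => exact ha
  | rot d _ ih => exact Inside.rot d ih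
  | pass d _ h1 _ ih => exact Inside.pass d ih h1

omit [Finite E] in
lemma Reach.mem {S : Set E} {a d : E} (h : Reach Γ A S a d) (hS : ∀ d ∈ S, Γ.rot d ∈ S) :
    d ∈ S := by
  induction h with
  | refl h => exact h
  | rot d _ ih => exact hS d ih
  | pass d _ _ h2 _ => exact h2

/-- The maximum principle inside the polygon: a high vertex is joined with the end of a leg from
a higher corner. -/
lemma Rules.high (R : Rules Γ σ A X Y) (z v : Ω) (a : E) (ha : Inside Γ A a) (hv : v ≤ X a z) :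
    (∃ e ∈ A, Reach Γ A {d | v ≤ X d z} a (Γ.flip e) ∧ v < X e z) ∨ X (Γ.flip a) z = X a z := by
  by_contra hcon
  push Not at hcon
  obtain ⟨hno, hne⟩ := hcon
  set S : Set E := {d | v ≤ X d z} with hS
  have hSrot : ∀ d ∈ S, Γ.rot d ∈ S := by
    intro d hd
    change v ≤ X (Γ.rot d) z
    rw [R.x_rot]
    exact hd
  have h0 : Reach Γ A S a a := Reach.refl hv
  obtain ⟨c, hc, hmax⟩ := Set.exists_max_image {d | Reach Γ A S a d} (fun d => X d z)
    (Set.toFinite _) ⟨a, h0⟩
  have hvc : v ≤ X c z := hv.trans (hmax a h0)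
  set W : Set E := {d | Reach Γ A S a d ∧ X d z = X c z} with hWd
  have hW : ∀ d, Γ.rot d ∈ W ↔ d ∈ W := by
    intro d
    constructor
    · rintro ⟨h1, h2⟩
      exact ⟨rot_back Γ _ (fun d hd => Reach.rot d hd) d h1, (R.x_rot d z).symm.trans h2⟩
    · rintro ⟨h1, h2⟩
      exact ⟨Reach.rot d h1, (R.x_rot d z).trans h2⟩
  have hle : ∀ d ∈ W, X (Γ.flip d) z ≤ X d z := by
    rintro d ⟨h1, h2⟩
    rw [h2]
    by_cases h3 : Γ.flip d ∈ A
    · exact (hno _ h3 (by rw [Γ.flip_flip]; exact h1)).trans hvc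
    · rcases le_or_gt v (X (Γ.flip d) z) with h4 | h4
      · exact hmax _ (Reach.pass d h1 h3 h4)
      · exact h4.le.trans hvc
  have heq := chain Γ (fun d => OrderDual.toDual (Y d z)) W hW
    (fun d => congrArg _ (R.y_rot d z)) (fun d hd => R.inn d z (hd.1.inside ha) (hle d hd))
  have hX : ∀ d ∈ W, X (Γ.flip d) z = X d z := fun d hd =>
    R.inn_str d z (hd.1.inside ha) (OrderDual.toDual.injective (heq d hd))
  have haW : a ∉ W := fun h => hne (hX a h)
  have hall : ∀ d, Reach Γ A S a d → d ∉ W := by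
    intro d hd
    induction hd with
    | refl _ => exact haW
    | rot d _ ih => exact fun h => ih ((hW d).mp h)
    | pass d hd _ _ ih =>
      intro h
      apply ih
      have h2 := hX _ h
      rw [Γ.flip_flip] at h2
      exact ⟨hd, h2.trans h.2⟩
  exact hall c hc ⟨hc, rfl⟩

/-- If the corners have the same height, this holds for all vertices. -/
lemma Rules.le_of_corners (H : Polygon Γ σ A) (R : Rules Γ σ A X Y) (z y : Ω)
    (h : ∀ k, X (σ k) z = y) (d : E) : X d z ≤ y := by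
  have : NeZero m := ⟨by have := H.size.1; omega⟩
  by_cases hd : Inside Γ A d
  · obtain ⟨c, hc, hmax⟩ := Set.exists_max_image {d | Inside Γ A d} (fun d => X d z)
      (Set.toFinite _) ⟨d, hd⟩
    refine (hmax d hd).trans ?_
    by_contra hn
    push Not at hn
    set W : Set E := {d | Inside Γ A d ∧ X d z = X c z} with hWd
    have hW : ∀ d, Γ.rot d ∈ W ↔ d ∈ W := by
      intro d
      change Inside Γ A (Γ.rot d) ∧ X (Γ.rot d) z = X c z ↔ Inside Γ A d ∧ X d z = X c z
      rw [inside_rot, R.x_rot]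
    have hleg : ∀ e ∈ A, X e z = y := by
      intro e he
      obtain ⟨k, rfl⟩ := H.leg_eg he
      rw [R.x_eg H, h]
    have hle : ∀ d ∈ W, X (Γ.flip d) z ≤ X d z := by
      rintro d ⟨h1, h2⟩
      rw [h2]
      by_cases h3 : Γ.flip d ∈ A
      · rw [hleg _ h3]
        exact hn.le
      · exact hmax _ (Inside.pass d h1 h3)
    have heq := chain Γ (fun d => OrderDual.toDual (Y d z)) W hW
      (fun d => congrArg _ (R.y_rot d z)) (fun d hd => R.inn d z hd.1 (hle d hd))
    have hX : ∀ d ∈ W, X (Γ.flip d) z = X d z := fun d hd =>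
      R.inn_str d z hd.1 (OrderDual.toDual.injective (heq d hd))
    have hall : ∀ d, Inside Γ A d → d ∉ W := by
      intro d hd
      induction hd with
      | leg e he =>
        intro h1
        have h2 := hX _ h1
        rw [Γ.flip_flip, hleg e he, h1.2] at h2
        exact hn.ne h2
      | rot d _ ih => exact fun h => ih ((hW d).mp h)
      | pass d hd _ ih =>
        intro h
        apply ih
        have h2 := hX _ h
        rw [Γ.flip_flip] at h2
        exact ⟨hd, h2.trans h.2⟩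
    exact hall c hc ⟨hc, rfl⟩
  · have h1 := R.top_out H z 0 (fun l => by rw [h, h]) d hd
    rwa [h] at h1

end max

end Pool.Agent.Helper31.PENT
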