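import Mathlib
import Pool.Agent.Helper31.PENT.Max

/-!
On a sphere, two walks inside the polygon meet if their ends alternate.
-/

set_option autoImplicit false

namespace Pool.Agent.Helper31.PENT

open Pool.Agent.Helper42.Th

variable {E : Type} [Finite E] {Γ : CMap E} {A : Set E} {m : ℕ} {σ : ZMod m → E}

open Classical in
/-- The edge of the dart `a`. -/
noncomputable def edge (Γ : CMap E) (a d : E) : ZMod 2 := if d = a ∨ d = Γ.flip a then 1 else 0

omit [Finite E] in
lemma edge_flip (a d : E) : edge Γ a (Γ.flip d) = edge Γ a d := by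
  have h1 : Γ.flip d = a ↔ d = Γ.flip a := by
    constructor
    · rintro rfl
      rw [Γ.flip_flip]
    · rintro rfl
      rw [Γ.flip_flip]
  have h2 : Γ.flip d = Γ.flip a ↔ d = a := Γ.flip.injective.eq_iff
  have h3 : (Γ.flip d = a ∨ Γ.flip d = Γ.flip a) ↔ (d = a ∨ d = Γ.flip a) := by
    rw [h1, h2, or_comm]
  unfold edge
  by_cases h : d = a ∨ d = Γ.flip a
  · rw [if_pos h, if_pos (h3.mpr h)]
  · rw [if_neg h, if_neg (mt h3.mp h)]

omit [Finite E] in
lemma edge_ne {a d : E} (h : edge Γ a d ≠ 0) : d = a ∨ d = Γ.flip a := by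
  by_contra hn
  exact h (if_neg hn)

omit [Finite E] in
lemma edge_zero {a d : E} (h1 : d ≠ a) (h2 : d ≠ Γ.flip a) : edge Γ a d = 0 := by
  unfold edge
  rw [if_neg]
  rintro (h | h)
  · exact h1 h
  · exact h2 h

omit [Finite E] in
lemma edge_self (a : E) : edge Γ a a = 1 := by
  unfold edge
  rw [if_pos (Or.inl rfl)]

omit [Finite E] in
lemma sum_edge [Fintype E] (a : E) (g : E → ZMod 2) :
    ∑ d, edge Γ a d * g d = g a + g (Γ.flip a) := by
  classical
  have h1 : ∀ d, edge Γ a d * g d = if d ∈ ({a, Γ.flip a} : Finset E) then g d else 0 := by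
    intro d
    unfold edge
    simp only [Finset.mem_insert, Finset.mem_singleton]
    split_ifs <;> simp
  simp_rw [h1]
  rw [Finset.sum_ite_mem, Finset.univ_inter, Finset.sum_pair (Γ.flip_ne a).symm]

lemma zmod2_aux : ∀ x y : ZMod 2, x + y = 0 → y = x := by decide

lemma zmod2_self (x : ZMod 2) : x + x = 0 := by
  revert x
  decide

omit [Finite E] in
/-- A walk as a set of edges. -/
lemma Reach.walk [Fintype E] {S : Set E} {a d : E} (h : Reach Γ A S a d) :
    ∃ w : E → ZMod 2, (∀ b, w (Γ.flip b) = w b) ∧ (∀ b, w b ≠ 0 → Reach Γ A S a b) ∧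
      ∀ g : E → ZMod 2, (∀ b, g (Γ.rot b) = g b) → ∑ b, w b * g b = g a + g d := by
  induction h with
  | refl h =>
    refine ⟨fun _ => 0, fun _ => rfl, fun b hb => absurd rfl hb, fun g _ => ?_⟩
    simp [zmod2_self]
  | rot d hd ih =>
    obtain ⟨w, h1, h2, h3⟩ := ih
    exact ⟨w, h1, h2, fun g hg => by rw [h3 g hg, hg]⟩
  | pass d hd hA hS ih =>
    obtain ⟨w, h1, h2, h3⟩ := ih
    refine ⟨fun b => w b + edge Γ d b, fun b => ?_, fun b hb => ?_, fun g hg => ?_⟩
    · simp only [h1, edge_flip]
    · by_cases h4 : w b = 0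
      · simp only [h4, zero_add] at hb
        rcases edge_ne hb with rfl | rfl
        · exact hd
        · exact Reach.pass _ hd hA hS
      · exact h2 b h4
    · simp only [add_mul, Finset.sum_add_distrib, h3 g hg, sum_edge]
      have := zmod2_self (g d)
      linear_combination this

omit [Finite E] in
lemma Reach.start {S : Set E} {a d : E} (h : Reach Γ A S a d) : a ∈ S := by
  induction h with
  | refl h => exact h
  | rot _ _ ih => exact ih
  | pass _ _ _ _ ih => exact ih

omit [Finite E] in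
lemma Polygon.not_inside_flip (H : Polygon Γ σ A) (k : ZMod m) :
    ¬ Inside Γ A (Γ.flip (σ k)) :=
  (PENT.not_inside_flip (H.out k) (H.not_leg k)).1

/-- Two walks with alternating ends meet. -/
theorem meet (hS : Sphere Γ) (H : Polygon Γ σ A) {U V : Set E} (hU : ∀ d ∈ U, Γ.rot d ∈ U)
    (hV : ∀ d ∈ V, Γ.rot d ∈ V) {a : ZMod m} {p s q : ℕ} (h1 : 0 < p) (h2 : p < s) (h3 : s < q)
    (h4 : q < m) (ea : eg Γ σ a ∈ A) (es : eg Γ σ (a + s) ∈ A) (ep : eg Γ σ (a + p) ∈ A)
    (eq : eg Γ σ (a + q) ∈ A)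
    (rU : Reach Γ A U (Γ.flip (eg Γ σ a)) (Γ.flip (eg Γ σ (a + s))))
    (rV : Reach Γ A V (Γ.flip (eg Γ σ (a + p))) (Γ.flip (eg Γ σ (a + q))) ∨
      Reach Γ A V (Γ.flip (eg Γ σ (a + q))) (Γ.flip (eg Γ σ (a + p)))) : ∃ d, d ∈ U ∧ d ∈ V := by
  classical
  have := Fintype.ofFinite E
  by_contra hcon
  push Not at hcon
  obtain ⟨w, w1, w2, w3⟩ := rU.walk
  set c : E → ZMod 2 := fun d => w d + edge Γ (eg Γ σ a) d + edge Γ (eg Γ σ (a + s)) d +
    ∑ t ∈ Finset.range s, edge Γ (σ (a + t)) d with hc
  have hia : Inside Γ A (Γ.flip (eg Γ σ a)) := Inside.leg _ ea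
  have his : Inside Γ A (Γ.flip (eg Γ σ (a + s))) := Inside.leg _ es
  -- vertex functions at the corners
  have gc : ∀ g : E → ZMod 2, (∀ b, g (Γ.rot b) = g b) → ∀ k, g (Γ.flip (σ (k - 1))) = g (σ k) := by
    intro g hg k
    rcases H.eg_or k with h | h
    · rw [← h.1, eg, hg]
    · rw [← h.2, hg, eg, hg]
  have ge : ∀ g : E → ZMod 2, (∀ b, g (Γ.rot b) = g b) → ∀ k, g (eg Γ σ k) = g (σ k) := by
    intro g hg k
    rw [eg, hg, gc g hg]
  obtain ⟨f, f1, f2⟩ := hS c (fun d => by
    simp only [hc, w1, edge_flip]) (fun g hg => by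
    rw [finsum_eq_sum_of_fintype]
    simp only [hc, add_mul, Finset.sum_add_distrib, w3 g hg, sum_edge, Finset.sum_mul]
    rw [Finset.sum_comm]
    simp only [sum_edge]
    have tel : ∀ n : ℕ, ∑ t ∈ Finset.range n, (g (σ (a + t)) + g (Γ.flip (σ (a + t)))) =
        g (σ a) + g (σ (a + n)) := by
      intro n
      induction n with
      | zero =>
        simp [zmod2_self]
      | succ n ih =>
        have e1 := gc g hg (a + (n + 1 : ℕ))
        have e2 : a + ((n + 1 : ℕ) : ZMod m) - 1 = a + n := by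
          push_cast
          ring
        rw [e2] at e1
        rw [Finset.sum_range_succ, ih, e1]
        have := zmod2_self (g (σ (a + n)))
        linear_combination this
    rw [tel, ge g hg, ge g hg]
    have e1 := zmod2_self (g (σ a))
    have e2 := zmod2_self (g (σ (a + s)))
    have e3 := zmod2_self (g (Γ.flip (eg Γ σ a)))
    have e4 := zmod2_self (g (Γ.flip (eg Γ σ (a + s))))
    linear_combination e1 + e2 + e3 + e4)
  have hz : ∀ d, c d = 0 → f (Γ.flip d) = f d := fun d hd =>
    zmod2_aux _ _ ((f2 d).symm.trans hd)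
  -- the values of `w` outside
  have hw : ∀ d, ¬ Inside Γ A d → w d = 0 := by
    intro d hd
    by_contra hn
    exact hd ((w2 d hn).inside hia)
  -- going around the corners
  have hO : ∀ k, f (σ k) = f (σ (k - 1)) := by
    intro k
    refine H.arc (· = ·) (fun _ => rfl) (fun _ _ _ h1 h2 => h1.trans h2) f f1 k
      fun d k1 k2 k3 k4 => hz d ?_
    have hd : ¬ Inside Γ A d := by
      obtain ⟨i, -, -, rfl⟩ := k1.exists_pow_eq''
      rw [inside_pow]
      exact H.out k
    have z1 : edge Γ (eg Γ σ a) d = 0 := edge_zero (fun h => k2 (h ▸ ea)) (fun h => hd (h ▸ hia))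
    have z2 : edge Γ (eg Γ σ (a + s)) d = 0 :=
      edge_zero (fun h => k2 (h ▸ es)) (fun h => hd (h ▸ his))
    have z3 : ∀ l, edge Γ (σ l) d = 0 := by
      intro l
      refine edge_zero (fun h => ?_) (fun h => ?_)
      · rw [h] at k1
        apply k3
        rw [h, H.ne _ _ k1]
      · rw [h] at k1
        have h5 := H.sameCycle (l + 1)
        rw [add_sub_cancel_right] at h5
        have h6 := H.ne _ _ (k1.trans h5)
        apply k4
        rw [h, h6, add_sub_cancel_right]
    simp only [hc, hw d hd, z1, z2, z3, Finset.sum_const_zero, add_zero]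
  have hOn : ∀ (n : ℕ) (b : ZMod m), f (σ (b + n)) = f (σ b) := by
    intro n b
    induction n with
    | zero => simp
    | succ n ih =>
      rw [hO, ← ih]
      congr 2
      push_cast
      ring
  -- the sides
  have hcσ : ∀ n : ℕ, n < m → c (σ (a + n)) = if n < s then 1 else 0 := by
    intro n hn
    have hd := H.out (a + n)
    have z1 : edge Γ (eg Γ σ a) (σ (a + n)) = 0 :=
      edge_zero (fun h => H.not_leg _ (h ▸ ea)) (fun h => hd (h ▸ hia))
    have z2 : edge Γ (eg Γ σ (a + s)) (σ (a + n)) = 0 :=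
      edge_zero (fun h => H.not_leg _ (h ▸ es)) (fun h => hd (h ▸ his))
    have z3 : ∀ t : ℕ, t < m → edge Γ (σ (a + t)) (σ (a + n)) = if t = n then 1 else 0 := by
      intro t ht
      split_ifs with h5
      · rw [h5, edge_self]
      · refine edge_zero (fun h => ?_) (fun h => ?_)
        · have h6 : a + (n : ZMod m) = a + t := H.ne _ _ (by rw [h])
          have h7 : ((n : ℕ) : ZMod m) = t := add_left_cancel h6
          rw [ZMod.natCast_eq_natCast_iff', Nat.mod_eq_of_lt hn, Nat.mod_eq_of_lt ht] at h7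
          exact h5 h7.symm
        · have h6 := H.sameCycle (a + t + 1)
          rw [add_sub_cancel_right, ← h] at h6
          have h7 := H.ne _ _ h6
          apply H.back (a + n)
          rw [h, h7, add_sub_cancel_right]
    simp only [hc, hw _ hd, z1, z2, zero_add]
    rw [Finset.sum_congr rfl fun t ht => z3 t (by
      have := Finset.mem_range.mp ht
      omega)]
    rw [Finset.sum_ite_eq' (Finset.range s) n (fun _ => (1 : ZMod 2))]
    simp only [Finset.mem_range]
  -- the darts of `V`
  have hVc : ∀ b d, Inside Γ A b → Reach Γ A V b d → f d = f b := by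
    intro b d hb hd
    have hzd : ∀ d, Reach Γ A V b d → f (Γ.flip d) = f d := by
      intro d hd
      have hdi := hd.inside hb
      have hdV := hd.mem hV
      apply hz
      have z0 : w d = 0 := by
        by_contra hn
        exact hcon d ((w2 d hn).mem hU) hdV
      have z1 : edge Γ (eg Γ σ a) d = 0 := by
        refine edge_zero (fun h => H.not_inside_leg ea (h ▸ hdi)) (fun h => ?_)
        exact hcon d (h ▸ rU.start) hdV
      have z2 : edge Γ (eg Γ σ (a + s)) d = 0 := by
        refine edge_zero (fun h => H.not_inside_leg es (h ▸ hdi)) (fun h => ?_)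
        exact hcon d (h ▸ rU.mem hU) hdV
      have z3 : ∀ l, edge Γ (σ l) d = 0 := by
        intro l
        refine edge_zero (fun h => H.out l (h ▸ hdi)) (fun h => ?_)
        exact H.not_inside_flip l (h ▸ hdi)
      simp only [hc, z0, z1, z2, z3, Finset.sum_const_zero, add_zero]
    induction hd with
    | refl _ => rfl
    | rot d hd ih =>
      have h5 := hzd _ (Reach.rot d hd)
      rw [f1] at h5
      rw [← h5, ih]
    | pass d hd _ _ ih => rw [hzd d hd, ih]
  have hfin : f (Γ.flip (eg Γ σ (a + p))) = f (Γ.flip (eg Γ σ (a + q))) := by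
    rcases rV with rV | rV
    · exact (hVc _ _ (Inside.leg _ ep) rV).symm
    · exact hVc _ _ (Inside.leg _ eq) rV
  have hfe : ∀ n : ℕ, n < m → f (Γ.flip (eg Γ σ (a + (n + 1 : ℕ)))) =
      f (σ a) + if n < s then 1 else 0 := by
    intro n hn
    have e2 : a + ((n + 1 : ℕ) : ZMod m) - 1 = a + n := by
      push_cast
      ring
    rw [eg, f1, e2]
    have h5 := f2 (σ (a + n))
    rw [hcσ n hn, hOn] at h5
    have h6 := zmod2_self (f (σ a))
    linear_combination -h6 - h5
  obtain ⟨p', rfl⟩ : ∃ p', p = p' + 1 := ⟨p - 1, by omega⟩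
  obtain ⟨q', rfl⟩ : ∃ q', q = q' + 1 := ⟨q - 1, by omega⟩
  rw [hfe p' (by omega), hfe q' (by omega), if_pos (by omega), if_neg (by omega)] at hfin
  have h5 : (1 : ZMod 2) = 0 := add_left_cancel hfin
  exact absurd h5 (by decide)

end Pool.Agent.Helper31.PENT
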