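import Mathlib
import Pool.Agent.Helper31.PENT.Core
import Pool.Agent.Helper31.PENT.Cross

/-!
An alternating diagram, one polygonal region of which, with at most five corners, is filled with
an alternating diagram of the opposite sign: the fundamental group is not left-orderable.
-/

set_option autoImplicit false

namespace Pool.Agent.Helper31.PENT

open Pool.Agent.Helper42.Th
open Pool.Agent.Helper31.OrderAct
open Pool.Agent.Helper71.Rot
open Pool.Agent.Helper71.Tree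

variable {E : Type} [Finite E] {Γ : CMap E} {A : Set E} {m : ℕ} {σ : ZMod m → E}

section aux

lemma three_aux {m : ℕ} (h : 3 ≤ m ∧ m ≤ 5) : ∀ i j : ZMod m,
    (j ≠ i ∧ j ≠ i + 1 ∧ j ≠ i - 1) → (j ≠ i + 1 ∧ j ≠ i + 1 + 1 ∧ j ≠ i + 1 - 1) →
    ¬ (j ≠ i - 1 ∧ j ≠ i - 1 + 1 ∧ j ≠ i - 1 - 1) := by
  obtain ⟨h1, h2⟩ := h
  interval_cases m <;> decide

private lemma inter_aux3 : ∀ a b c : Fin 3,
    (b ≠ 0 ∧ b ≠ 1 ∧ b ≠ -1) → (c ≠ a ∧ c ≠ a + 1 ∧ c ≠ a - 1) →
    b = a ∨ b = c ∨ c = 0 ∨ a = 0 ∨ (0 < a.val ∧ a.val < b.val ∧ b.val < c.val) ∨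
      (0 < c.val ∧ c.val < b.val ∧ b.val < a.val) := by
  decide

private lemma inter_aux4 : ∀ a b c : Fin 4,
    (b ≠ 0 ∧ b ≠ 1 ∧ b ≠ -1) → (c ≠ a ∧ c ≠ a + 1 ∧ c ≠ a - 1) →
    b = a ∨ b = c ∨ c = 0 ∨ a = 0 ∨ (0 < a.val ∧ a.val < b.val ∧ b.val < c.val) ∨
      (0 < c.val ∧ c.val < b.val ∧ b.val < a.val) := by
  decide

private lemma inter_aux5 : ∀ a b c : Fin 5,
    (b ≠ 0 ∧ b ≠ 1 ∧ b ≠ -1) → (c ≠ a ∧ c ≠ a + 1 ∧ c ≠ a - 1) →
    b = a ∨ b = c ∨ c = 0 ∨ a = 0 ∨ (0 < a.val ∧ a.val < b.val ∧ b.val < c.val) ∨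
      (0 < c.val ∧ c.val < b.val ∧ b.val < a.val) := by
  decide

lemma inter_aux {m : ℕ} (h : 3 ≤ m ∧ m ≤ 5) : ∀ a b c : ZMod m,
    (b ≠ 0 ∧ b ≠ 1 ∧ b ≠ -1) → (c ≠ a ∧ c ≠ a + 1 ∧ c ≠ a - 1) →
    b = a ∨ b = c ∨ c = 0 ∨ a = 0 ∨ (0 < a.val ∧ a.val < b.val ∧ b.val < c.val) ∨
      (0 < c.val ∧ c.val < b.val ∧ b.val < a.val) := by
  obtain ⟨h1, h2⟩ := h
  interval_cases m
  · exact inter_aux3
  · exact inter_aux4
  · exact inter_aux5

end aux

section order

variable {Ω : Type*} [LinearOrder Ω] {X Y : E → Ω ≃o Ω}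

/-- The first and the last corner are not neighbours. -/
lemma Rules.apart_succ (H : Polygon Γ σ A) (R : Rules Γ σ A X Y) {y : Ω} {i : ZMod m}
    (hN : ¬ ∃ z, ∀ k, (X (σ k)).symm y = z) (hi : ∀ k, (X (σ i)).symm y ≤ (X (σ k)).symm y)
    (hj : ∀ k, (X (σ k)).symm y ≤ (X (σ (i + 1))).symm y) : False := by
  by_cases he : eg Γ σ i ∈ A
  · have hA := R.first_leg H y i hi he
    have h1 : X (σ (i - 1)) ((X (σ i)).symm y) ≤ y := by
      rw [← OrderIso.le_symm_apply]
      exact hi _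
    rcases R.dual.high (OrderDual.toDual ((X (σ (i + 1))).symm y)) (OrderDual.toDual y)
      (Γ.flip (eg Γ σ i)) (Inside.leg _ he) (hA.trans h1) with ⟨e, h2, -, h3⟩ | h2
    · obtain ⟨k, rfl⟩ := H.leg_eg h2
      have h4 : X (eg Γ σ k) ((X (σ (i + 1))).symm y) < y := h3
      rw [R.x_eg H, ← OrderIso.lt_symm_apply] at h4
      exact absurd (hj k) (not_le.mpr h4)
    · have h3 : X (Γ.flip (Γ.flip (eg Γ σ i))) ((X (σ (i + 1))).symm y) =
          X (Γ.flip (eg Γ σ i)) ((X (σ (i + 1))).symm y) := OrderDual.toDual.injective h2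
      rw [Γ.flip_flip, R.x_eg H] at h3
      have h4 : X (σ i) ((X (σ (i + 1))).symm y) ≤ y := h3.le.trans (hA.trans h1)
      rw [← OrderIso.le_symm_apply] at h4
      exact hN ⟨(X (σ i)).symm y, fun k => le_antisymm ((hj k).trans h4) (hi k)⟩
  · obtain ⟨h1, -⟩ := R.first_none H y i hi he
    exact hN ⟨(X (σ i)).symm y, fun k => le_antisymm ((hj k).trans h1.le) (hi k)⟩

lemma Rules.apart (H : Polygon Γ σ A) (R : Rules Γ σ A X Y) {y : Ω} {i j : ZMod m}
    (hN : ¬ ∃ z, ∀ k, (X (σ k)).symm y = z) (hi : ∀ k, (X (σ i)).symm y ≤ (X (σ k)).symm y)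
    (hj : ∀ k, (X (σ k)).symm y ≤ (X (σ j)).symm y) : j ≠ i ∧ j ≠ i + 1 ∧ j ≠ i - 1 := by
  refine ⟨?_, ?_, ?_⟩
  · rintro rfl
    exact hN ⟨(X (σ j)).symm y, fun k => le_antisymm (hj k) (hi k)⟩
  · rintro rfl
    exact R.apart_succ H hN hi hj
  · rintro rfl
    refine R.dual.apart_succ H (y := OrderDual.toDual y) (i := i - 1) ?_ hj ?_
    · rintro ⟨z, hz⟩
      exact hN ⟨OrderDual.ofDual z, fun k => congrArg OrderDual.ofDual (hz k)⟩
    · rw [sub_add_cancel]
      exact hi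

/-- There are not three neighbouring first corners. -/
lemma Rules.three (H : Polygon Γ σ A) (R : Rules Γ σ A X Y) {y : Ω} {i : ZMod m}
    (hN : ¬ ∃ z, ∀ k, (X (σ k)).symm y = z) (hi : ∀ k, (X (σ i)).symm y ≤ (X (σ k)).symm y)
    (h1 : (X (σ (i + 1))).symm y = (X (σ i)).symm y)
    (h2 : (X (σ (i - 1))).symm y = (X (σ i)).symm y) : False := by
  have : NeZero m := ⟨by have := H.size.1; omega⟩
  obtain ⟨j, hj⟩ := exists_last (fun k => X (σ k)) y
  exact three_aux H.size i j (R.apart H hN hi hj)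
    (R.apart H (i := i + 1) hN (by rw [h1]; exact hi) hj)
    (R.apart H (i := i - 1) hN (by rw [h2]; exact hi) hj)

/-- The walk from the first corner to another corner. -/
lemma Rules.outlet (H : Polygon Γ σ A) (R : Rules Γ σ A X Y) {y : Ω} {i : ZMod m}
    (hN : ¬ ∃ z, ∀ k, (X (σ k)).symm y = z) (hi : ∀ k, (X (σ i)).symm y ≤ (X (σ k)).symm y) :
    eg Γ σ i ∈ A ∧ ∃ l, eg Γ σ l ∈ A ∧ (l ≠ i ∧ l ≠ i + 1 ∧ l ≠ i - 1) ∧
      Reach Γ A {d | X d ((X (σ (i + 1))).symm y) ≤ X (σ (i - 1)) ((X (σ i)).symm y)}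
        (Γ.flip (eg Γ σ i)) (Γ.flip (eg Γ σ l)) := by
  have he : eg Γ σ i ∈ A := by
    by_contra he
    obtain ⟨h1, h2⟩ := R.first_none H y i hi he
    exact R.three H hN hi h1 h2
  refine ⟨he, ?_⟩
  have hA := R.first_leg H y i hi he
  have h1 : X (σ (i - 1)) ((X (σ i)).symm y) ≤ y := by
    rw [← OrderIso.le_symm_apply]
    exact hi _
  rcases R.dual.high (OrderDual.toDual ((X (σ (i + 1))).symm y))
    (OrderDual.toDual (X (σ (i - 1)) ((X (σ i)).symm y)))
    (Γ.flip (eg Γ σ i)) (Inside.leg _ he) hA with ⟨e, h2, h3, h4⟩ | h2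
  · obtain ⟨l, rfl⟩ := H.leg_eg h2
    have h5 : X (eg Γ σ l) ((X (σ (i + 1))).symm y) < X (σ (i - 1)) ((X (σ i)).symm y) := h4
    rw [R.x_eg H] at h5
    refine ⟨l, h2, ⟨?_, ?_, ?_⟩, h3⟩
    · rintro rfl
      have h6 : y ≤ X (σ l) ((X (σ (l + 1))).symm y) := by
        rw [← OrderIso.symm_apply_le]
        exact hi _
      exact absurd (h1.trans h6) (not_le.mpr h5)
    · rintro rfl
      rw [OrderIso.apply_symm_apply] at h5
      exact absurd h1 (not_le.mpr h5)
    · rintro rfl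
      rw [OrderIso.lt_iff_lt] at h5
      exact absurd (hi _) (not_le.mpr h5)
  · exfalso
    have h3 : X (Γ.flip (Γ.flip (eg Γ σ i))) ((X (σ (i + 1))).symm y) =
        X (Γ.flip (eg Γ σ i)) ((X (σ (i + 1))).symm y) := OrderDual.toDual.injective h2
    rw [Γ.flip_flip, R.x_eg H] at h3
    have h4 : y ≤ X (σ i) ((X (σ (i + 1))).symm y) := by
      rw [← OrderIso.symm_apply_le]
      exact hi _
    have h5 : y ≤ X (σ (i - 1)) ((X (σ i)).symm y) := h4.trans (h3.le.trans hA)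
    have h6 : X (σ i) ((X (σ (i + 1))).symm y) ≤ y := h3.le.trans (hA.trans h1)
    rw [← OrderIso.le_symm_apply] at h6
    rw [← OrderIso.symm_apply_le] at h5
    exact R.three H hN hi (le_antisymm h6 (hi _)) (le_antisymm h5 (hi _))

/-- A common vertex of the walks from the last and from the first corner. -/
lemma Rules.common (hS : Sphere Γ) (H : Polygon Γ σ A) (R : Rules Γ σ A X Y) {y z : Ω}
    {i j : ZMod m} (hNy : ¬ ∃ x, ∀ k, (X (σ k)).symm y = x)
    (hNz : ¬ ∃ x, ∀ k, (X (σ k)).symm z = x)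
    (hi : ∀ k, (X (σ i)).symm y ≤ (X (σ k)).symm y)
    (hj : ∀ k, (X (σ k)).symm z ≤ (X (σ j)).symm z) :
    ∃ d, X (σ (j - 1)) ((X (σ j)).symm z) ≤ X d ((X (σ (j + 1))).symm z) ∧
      X d ((X (σ (i + 1))).symm y) ≤ X (σ (i - 1)) ((X (σ i)).symm y) := by
  have : NeZero m := ⟨by have := H.size.1; omega⟩
  obtain ⟨ei, l, el, hl, rl⟩ := R.outlet H hNy hi
  obtain ⟨ej, k, ek, hk, rk⟩ := R.dual.outlet H (y := OrderDual.toDual z) (i := j)
    (by
      rintro ⟨x, hx⟩
      exact hNz ⟨OrderDual.ofDual x, fun k => congrArg OrderDual.ofDual (hx k)⟩) hj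
  set U : Set E := {d | X (σ (j - 1)) ((X (σ j)).symm z) ≤ X d ((X (σ (j + 1))).symm z)} with hU
  set V : Set E := {d | X d ((X (σ (i + 1))).symm y) ≤ X (σ (i - 1)) ((X (σ i)).symm y)} with hV
  have rk' : Reach Γ A U (Γ.flip (eg Γ σ j)) (Γ.flip (eg Γ σ k)) := rk
  have hUr : ∀ d ∈ U, Γ.rot d ∈ U := by
    intro d hd
    change _ ≤ X (Γ.rot d) _
    rw [R.x_rot]
    exact hd
  have hVr : ∀ d ∈ V, Γ.rot d ∈ V := by
    intro d hd
    change X (Γ.rot d) _ ≤ _
    rw [R.x_rot]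
    exact hd
  have key := inter_aux H.size (i - j) (k - j) (l - j)
    ⟨fun h => hk.1 (by linear_combination h), fun h => hk.2.1 (by linear_combination h),
      fun h => hk.2.2 (by linear_combination h)⟩
    ⟨fun h => hl.1 (by linear_combination h), fun h => hl.2.1 (by linear_combination h),
      fun h => hl.2.2 (by linear_combination h)⟩
  have ci : j + (((i - j).val : ℕ) : ZMod m) = i := by
    rw [ZMod.natCast_zmod_val]
    ring
  have ck : j + (((k - j).val : ℕ) : ZMod m) = k := by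
    rw [ZMod.natCast_zmod_val]
    ring
  have cl : j + (((l - j).val : ℕ) : ZMod m) = l := by
    rw [ZMod.natCast_zmod_val]
    ring
  rcases key with h | h | h | h | h | h
  · have : k = i := by linear_combination h
    subst this
    exact ⟨_, rk'.mem hUr, rl.start⟩
  · have : k = l := by linear_combination h
    subst this
    exact ⟨_, rk'.mem hUr, rl.mem hVr⟩
  · have : l = j := by linear_combination h
    subst this
    exact ⟨_, rk'.start, rl.mem hVr⟩
  · have : i = j := by linear_combination h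
    subst this
    exact ⟨_, rk'.start, rl.start⟩
  · exact meet hS H hUr hVr (a := j) (p := (i - j).val) (s := (k - j).val) (q := (l - j).val)
      h.1 h.2.1 h.2.2 (ZMod.val_lt _) ej (by rwa [ck]) (by rwa [ci]) (by rwa [cl])
      (by rwa [ck]) (Or.inl (by rwa [ci, cl]))
  · exact meet hS H hUr hVr (a := j) (p := (l - j).val) (s := (k - j).val) (q := (i - j).val)
      h.1 h.2.1 h.2.2 (ZMod.val_lt _) ej (by rwa [ck]) (by rwa [cl]) (by rwa [ci])
      (by rwa [ck]) (Or.inr (by rwa [ci, cl]))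

/-- The labels of the corners. -/
lemma Rules.wave (hS : Sphere Γ) (H : Polygon Γ σ A) (R : Rules Γ σ A X Y) (U : Ω → Prop)
    (hU : ∀ k z, U z → U (X (σ k) z)) (hU' : ∀ k z, U z → U ((X (σ k)).symm z))
    (hN : ∀ y, U y → ¬ ∃ z, ∀ k, (X (σ k)).symm y = z) : Wave U (fun k => X (σ k)) where
  inv := hU
  inv' := hU'
  apart y i j hy hi hj := R.apart H (hN y hy) hi hj
  cross y z i j hy hz hi hj hle := by
    obtain ⟨d, h1, h2⟩ := R.common hS H (hN y hy) (hN z hz) hi hj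
    exact h1.trans (((X d).monotone hle).trans h2)
  cross' y z i j hy hz hi hj hlt := by
    obtain ⟨d, h1, h2⟩ := R.common hS H (hN y hy) (hN z hz) hi hj
    exact h1.trans_lt (((X d).strictMono hlt).trans_le h2)

/-- If the corners have the same height, all labels are equal. -/
lemma Rules.all_eq (H : Polygon Γ σ A) (R : Rules Γ σ A X Y) {y z : Ω}
    (h : ∀ k, X (σ k) z = y) : (∀ d, X d z = y) ∧ ∀ c d, Y c z = Y d z := by
  have hX : ∀ d, X d z = y := fun d => le_antisymm (R.le_of_corners H z y h d)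
    (R.dual.le_of_corners H (OrderDual.toDual z) (OrderDual.toDual y)
      (fun k => congrArg OrderDual.toDual (h k)) d)
  refine ⟨hX, ?_⟩
  have hY : ∀ d, Y (Γ.flip d) z = Y d z := by
    have h1 : ∀ d, Inside Γ A d → Y (Γ.flip d) z = Y d z := fun d hd =>
      le_antisymm (R.inn' d z hd ((hX _).trans (hX _).symm).le)
        (R.inn d z hd ((hX _).trans (hX _).symm).le)
    intro d
    by_cases hd : Inside Γ A d
    · exact h1 d hd
    · by_cases hA : d ∈ A
      · have h2 := h1 _ (Inside.leg (Γ := Γ) d hA)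
        rw [Γ.flip_flip] at h2
        exact h2.symm
      · exact le_antisymm (R.out d z hd hA ((hX _).trans (hX _).symm).le)
          (R.out' d z hd hA ((hX _).trans (hX _).symm).le)
  intro c d
  have huniv := Γ.conn {e | Y e z = Y d z} ⟨d, rfl⟩ fun e he => by
    refine ⟨?_, (hY e).trans he⟩
    change Y (Γ.rot e) z = Y d z
    rw [← hY, R.y_rot]
    exact he
  have : c ∈ {e | Y e z = Y d z} := by
    rw [huniv]
    trivial
  exact this

end order

/-- The main theorem. -/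
theorem not_leftOrderable {G : Type*} [Group G] (hS : Sphere Γ) (H : Polygon Γ σ A)
    (L : Lab G Γ) (P : Set E) (F : E → Set G) (hF : Filled L σ A P F)
    (hgen : Subgroup.closure (L.elts ∪ ⋃ d ∈ P, F d) = ⊤) :
    ¬ (Nontrivial G ∧ ∃ _ : LinearOrder G, ∀ f g h : G, g ≤ h → f * g ≤ f * h) := by
  rintro ⟨hnt, ⟨ho, hmul⟩⟩
  set ρ := cutHom hmul with hρ
  have R := rules_of_filled L ρ hF
  -- a point at which the corners agree is fixed
  have hall : ∀ y z : LowerSet G, (∀ k, lx L ρ (σ k) z = y) → y = z ∧ ∀ g : G, ρ g z = z := by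
    intro y z hyz
    obtain ⟨hX, hY⟩ := R.all_eq H hyz
    have hy : y = z := by
      obtain ⟨c, hc⟩ := L.x_one
      have h1 := hX c
      change ρ (L.x c) z = y at h1
      rw [hc, map_one] at h1
      exact h1.symm
    have hX1 : ∀ d, ρ (L.x d) z = z := fun d => (hX d).trans hy
    have hY1 : ∀ d, ρ (L.y d) z = z := by
      obtain ⟨c, hc⟩ := L.y_one
      intro d
      have h1 : ly L ρ d z = ly L ρ c z := hY d c
      change ρ (L.y d) z = ρ (L.y c) z at h1
      rw [h1, hc, map_one]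
      rfl
    have hDd : ∀ d, ρ (L.D d) z = z := by
      intro d
      rw [Lab.D, map_mul, map_inv, RelIso.mul_apply, hX1]
      exact inv_fix (hX1 _)
    have hMd : ∀ d, ρ (L.M d) z = z := by
      intro d
      rw [Lab.M, map_mul, map_inv, RelIso.mul_apply, hY1]
      exact inv_fix (hY1 _)
    have hMi : ∀ d, ρ (L.M d)⁻¹ z = z := by
      intro d
      rw [map_inv]
      exact inv_fix (hMd d)
    refine ⟨hy, fun g => ?_⟩
    have hg : g ∈ Subgroup.closure (L.elts ∪ ⋃ d ∈ P, F d) := by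
      rw [hgen]
      trivial
    induction hg using Subgroup.closure_induction with
    | mem y hy =>
      rcases hy with (⟨d, rfl⟩ | ⟨d, rfl⟩) | hy
      · exact hX1 d
      · exact hY1 d
      · obtain ⟨d, hd⟩ := Set.mem_iUnion.mp hy
        obtain ⟨hd1, hd2⟩ := Set.mem_iUnion.mp hd
        by_cases h1 : d ∈ A ∨ Γ.flip d ∈ A
        · exact (spec_of_fill ρ (hF.leg d hd1 h1)).fix z (hDd d) (hMi d) _ ⟨y, hd2, rfl⟩
        · by_cases h2 : ∃ k, σ k = d ∨ σ k = Γ.flip d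
          · exact (spec_of_fill ρ (hF.side d hd1 h2)).fix z (hMd d) (hDd d) _ ⟨y, hd2, rfl⟩
          · push Not at h1 h2
            by_cases h3 : Inside Γ A d
            · exact (spec_of_fill ρ (hF.inner d hd1 h1.1 h1.2 h3)).fix z (hMi d) (hDd d) _
                ⟨y, hd2, rfl⟩
            · exact (spec_of_fill ρ (hF.outer d hd1 h1.1 h1.2 h3 h2)).fix z (hMd d) (hDd d) _
                ⟨y, hd2, rfl⟩
    | one => rw [map_one]; rfl
    | mul a b _ _ ha hb => rw [map_mul, RelIso.mul_apply, hb, ha]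
    | inv a _ ha => rw [map_inv]; exact inv_fix ha
  -- fixed points are trivial
  have htriv : ∀ z : LowerSet G, (∀ g : G, ρ g z = z) → z = ⊥ ∨ z = ⊤ := by
    intro z hz
    by_cases h0 : z = ⊥
    · exact Or.inl h0
    · right
      have h1 : ∃ x : G, x ∈ z := by
        by_contra hn
        push Not at hn
        apply h0
        ext x
        simpa using hn x
      obtain ⟨x, hx⟩ := h1
      ext y
      simp only [LowerSet.coe_top, Set.mem_univ, iff_true, SetLike.mem_coe]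
      rw [← hz (y * x⁻¹), hρ, mem_cutHom]
      simpa using hx
  -- a nontrivial point
  have h1 : ∃ y : LowerSet G, y ≠ ⊥ ∧ y ≠ ⊤ := by
    obtain ⟨a, b, hab⟩ := exists_pair_lt G
    refine ⟨LowerSet.Iic a, ?_, ?_⟩
    · intro h
      have h2 : a ∈ LowerSet.Iic a := by simp
      rw [h] at h2
      simp at h2
    · intro h
      have h2 : b ∈ LowerSet.Iic a := by
        rw [h]
        simp
      exact absurd (LowerSet.mem_Iic_iff.mp h2) (not_le.mpr hab)
  obtain ⟨y, hy⟩ := h1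
  have hm : 0 < m := by
    have := H.size.1
    omega
  refine (R.wave hS H (fun z => z ≠ ⊥ ∧ z ≠ ⊤) ?_ ?_ ?_).main hm H.size.2 y hy
  · rintro k z ⟨h2, h3⟩
    exact ⟨fun h => h2 ((map_eq_bot_iff _).mp h), fun h => h3 ((map_eq_top_iff _).mp h)⟩
  · rintro k z ⟨h2, h3⟩
    exact ⟨fun h => h2 ((map_eq_bot_iff _).mp h), fun h => h3 ((map_eq_top_iff _).mp h)⟩
  · rintro y ⟨h2, h3⟩ ⟨z, hz⟩
    obtain ⟨h4, h5⟩ := hall y z fun k => by rw [← hz k, OrderIso.apply_symm_apply]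
    subst h4
    rcases htriv _ h5 with h6 | h6
    · exact h2 h6
    · exact h3 h6

end Pool.Agent.Helper31.PENT
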